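import Pool.Agent.P.MP_ab3ecb_nt.TK.IfaceC

/-! Step ALG. -/

set_option autoImplicit false
set_option linter.unusedSectionVars false

namespace Pool.Agent.P.MP_ab3ecb_nt.TK

open Filter Topology NumberField IsDedekindDomain
open Pool.Agent.P.MP_ab3ecb_nt.TP (Dn)
open Pool.Agent.P.MP_8b7eba_nt.R2 hiding Sm
open scoped Classical NNReal

namespace ALGx

variable {K : Type} [Field K] [NumberField K] [Algebra K Om] [Algebra K ℝ] [Cmp K] {A B : 𝓞 K}

theorem exV {x : ℝ} (hx : ¬ IsIntegral ℚ x) :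
    ∃ V : ValuationSubring ℝ, (∀ y : ℝ, IsIntegral ℚ y → y ∈ V) ∧ x ∉ V := by
  have : IsIntegrallyClosedIn (integralClosure ℚ ℝ).toSubring ℝ :=
    inferInstanceAs (IsIntegrallyClosedIn (integralClosure ℚ ℝ) ℝ)
  obtain ⟨V, h1, h2⟩ := Subring.exists_le_valuationSubring_of_isIntegrallyClosedIn
    (R := (integralClosure ℚ ℝ).toSubring) (x := x) hx
  exact ⟨V, fun q hq => h1 hq, h2⟩

theorem intK (k : K) : IsIntegral ℚ (algebraMap K ℝ k) :=
  (Algebra.IsIntegral.isIntegral (R := ℚ) k).map (algebraMap K ℝ).toRatAlgHom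

theorem intX (hMUL : S_MUL) (R : Pt A B ℝ) (n : ℤ) (Q : Pt A B K) (hn : n ≠ 0)
    (h : n • R = bc ℝ Q) : IsIntegral ℚ (X R) := by
  by_contra hx
  obtain ⟨V, h1, h2⟩ := exV hx
  have h3 : 1 < V.valuation (X R) := not_le.1 fun h3 => h2 ((V.valuation_le_one_iff _).1 h3)
  have h4 : V.valuation (n : ℝ) = 1 := by
    have a := (V.valuation_le_one_iff _).2 (h1 _ (intK (n : K)))
    have b := (V.valuation_le_one_iff _).2 (h1 _ (intK (n : K)⁻¹))
    have c : (n : ℝ) ≠ 0 := by exact_mod_cast hn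
    rw [map_inv₀, map_inv₀] at b
    rw [map_intCast] at a b
    have d : 0 < V.valuation (n : ℝ) := zero_lt_iff.2 ((Valuation.ne_zero_iff _).2 c)
    exact le_antisymm a ((inv_le_one₀ d).1 b)
  have hE : E1 V.valuation R := .inr h3
  obtain ⟨-, m2, m3⟩ := hMUL A B ℝ _ V.valuation
  have h5 := m3 R n h4 hE
  have h6 := (m2 _ R n hE.sm).1
  rcases h6 with h6 | h6
  · rw [h6, Z_zero, map_zero] at h5
    exact Z_ne h3 ((Valuation.zero_iff _).1 h5.symm)
  · rw [h, X_bc] at h6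
    exact h6.not_ge ((V.valuation_le_one_iff _).2 (h1 _ (intK _)))

theorem intY {R : Pt A B ℝ} (h0 : R ≠ 0) (h : IsIntegral ℚ (X R)) : IsIntegral ℚ (Y R) := by
  refine IsIntegral.of_pow two_pos ?_
  rw [eqn h0]
  exact ((h.pow 3).add ((intK (A : K)).mul h)).add (intK (B : K))

theorem lift {x : ℝ} (h : IsIntegral ℚ x) : ∃ a : Om, io a = x :=
  a_TAU.2.2.2.1 _ (h.map (IsScalarTower.toAlgHom ℚ ℝ ℂ)).isAlgebraic

theorem io_coe (a : 𝓞 K) : io (a : Om) = (a : ℝ) := Cmp.eq (a : K)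

theorem real_iff (hD : 4 * A ^ 3 + 27 * B ^ 2 ≠ 0) (P : Pt A B Om) :
    act (tauK K) P = P ↔ ∃ R : Pt A B ℝ, pm (ioK K) P = pm (reK K) R := by
  by_cases h0 : P = 0
  · subst h0
    exact ⟨fun _ => ⟨0, by rw [map_zero, map_zero]⟩, fun _ => map_zero _⟩
  constructor
  · intro h
    have hx : tau (X P) = X P := (X_pm _ P).symm.trans (congrArg X h)
    have hy : tau (Y P) = Y P := (Y_pm _ P).symm.trans (congrArg Y h)
    obtain ⟨x, ex⟩ := Complex.conj_eq_iff_real.1 ((a_TAU.1 _).symm.trans (congrArg io hx))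
    obtain ⟨y, ey⟩ := Complex.conj_eq_iff_real.1 ((a_TAU.1 _).symm.trans (congrArg io hy))
    have e := congrArg io (eqn h0)
    simp only [map_add, map_pow, map_mul, io_coe, ex, ey] at e
    obtain ⟨R, r0, r1, r2⟩ := exists_pt (A := A) (B := B) (L := ℝ) hD (x := x) (y := y)
      (by exact_mod_cast e)
    exact ⟨R, pt_ext (mt (pm_eq_zero _).1 h0) (mt (pm_eq_zero _).1 r0) (by simp [ex, r1])
      (by simp [ey, r2])⟩
  · rintro ⟨R, h⟩
    have hx : io (X P) = (X R : ℝ) := by simpa using congrArg X h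
    have hy : io (Y P) = (Y R : ℝ) := by simpa using congrArg Y h
    refine pt_ext (mt (pm_eq_zero _).1 h0) h0 ?_ ?_
    · rw [X_pm]
      refine io.injective ((a_TAU.1 _).trans ?_)
      rw [hx, Complex.conj_ofReal]
    · rw [Y_pm]
      refine io.injective ((a_TAU.1 _).trans ?_)
      rw [hy, Complex.conj_ofReal]

end ALGx

theorem p_ALG (hMUL : S_MUL) :
    S_ALG := by
  intro K _ _ _ _ _ A B hD
  refine ⟨fun R n Q hn h => ?_, fun g P => ?_, fun P Q => ?_⟩
  · by_cases h0 : R = 0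
    · exact ⟨0, by rw [h0, IsR, map_zero, map_zero, map_zero]⟩
    have hx := ALGx.intX hMUL R n Q hn h
    obtain ⟨a, ha⟩ := ALGx.lift hx
    obtain ⟨b, hb⟩ := ALGx.lift (ALGx.intY h0 hx)
    have e : b ^ 2 = a ^ 3 + A * a + B := by
      refine io.injective ?_
      simp only [map_add, map_pow, map_mul, ALGx.io_coe, ha, hb]
      exact_mod_cast eqn h0
    obtain ⟨P, p0, p1, p2⟩ := exists_pt (A := A) (B := B) (L := Om) hD e
    refine ⟨P, ?_⟩
    rw [IsR, act_one]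
    exact pt_ext (mt (pm_eq_zero _).1 p0) (mt (pm_eq_zero _).1 h0) (by simp [p1, ha])
      (by simp [p2, hb])
  · refine Iff.trans ?_ (ALGx.real_iff hD (act g P))
    rw [act_mul, act_mul]
    constructor
    · intro h
      have h1 := congrArg (act g) h
      rwa [← act_mul, mul_inv_cancel, act_one] at h1
    · intro h
      rw [h, ← act_mul, inv_mul_cancel, act_one]
  · have key : ∀ (g : GK K) (P : Pt A B Om), g.1 (X P) = X P → g.1 (Y P) = Y P → act g P = P :=
      fun g P h1 h2 => (pm_congr (g := AlgHom.id _ Om) h1 h2).trans (pm_id P)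
    refine open_of_le (N := GK K ⊓ ((MulAction.stabilizer GQ (X P) ⊓ MulAction.stabilizer GQ (Y P)) ⊓
      (MulAction.stabilizer GQ (X Q) ⊓ MulAction.stabilizer GQ (Y Q)))) (open_GK.inter
      (((isOpen_stab _).inter (isOpen_stab _)).inter ((isOpen_stab _).inter (isOpen_stab _))))
      fun g ⟨h, hg⟩ => ⟨h, key ⟨g, h⟩ P hg.1.1 hg.1.2, key ⟨g, h⟩ Q hg.2.1 hg.2.2⟩

end Pool.Agent.P.MP_ab3ecb_nt.TK
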