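import Pool.Agent.P.MP_ab3ecb_nt.TK.IfaceC

/-! Step CMP. -/

set_option autoImplicit false
set_option linter.unusedSectionVars false

namespace Pool.Agent.P.MP_ab3ecb_nt.TK

open Filter Topology NumberField IsDedekindDomain
open Pool.Agent.P.MP_ab3ecb_nt.TP (Dn)
open Pool.Agent.P.MP_8b7eba_nt.R2 hiding Sm
open scoped Classical NNReal

theorem p_CMP :
    S_CMP := by
  intro K _ _ _
  let f : K →+* ℂ := Complex.ofRealHom.comp (algebraMap K ℝ)
  have halg : ∀ k : K, ∃ x : Om, io x = f k := fun k =>
    a_TAU.2.2.2.1 _ ((Algebra.IsAlgebraic.isAlgebraic (R := ℚ) k).algHom f.toRatAlgHom)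
  choose j hj using halg
  let g : K →+* Om :=
    { toFun := j
      map_one' := io.injective (by rw [hj, map_one, map_one])
      map_mul' := fun a b => io.injective (by rw [map_mul io, hj, hj, hj, map_mul])
      map_zero' := io.injective (by rw [hj, map_zero, map_zero])
      map_add' := fun a b => io.injective (by rw [map_add io, hj, hj, hj, map_add]) }
  refine ⟨g.toAlgebra, ?_⟩
  let _ : Algebra K Om := g.toAlgebra
  exact ⟨fun k => hj k⟩

end Pool.Agent.P.MP_ab3ecb_nt.TK
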