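import Pool.Agent.P.MP_ab3ecb_nt.TK.IfaceC

/-! Step FI. -/

set_option autoImplicit false
set_option linter.unusedSectionVars false

namespace Pool.Agent.P.MP_ab3ecb_nt.TK

open Filter Topology NumberField IsDedekindDomain
open Pool.Agent.P.MP_ab3ecb_nt.TP (Dn)
open Pool.Agent.P.MP_8b7eba_nt.R2 hiding Sm
open scoped Classical NNReal

theorem p_FI (hMUL : S_MUL) (hFARE : S_FARE) :
    S_FI := by
  intro K _ _ _ A B w U P c hD hU hP hc
  wlog h1 : c ≤ 1 generalizing c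
  · obtain ⟨N, N0, h⟩ := this 1 one_pos le_rfl
    exact ⟨N, N0, h.mono (not_le.1 h1).le⟩
  by_contra! hn
  have hb := fun n : ℕ => bound_of_not_sm h1 (hn (n + 1) n.succ_pos)
  have hM : ∀ n : ℕ, w.v (X ((n + 1) • P)) ≤ (c ^ 2)⁻¹ := fun n => by
    rw [← mul_one (c ^ 2)⁻¹, le_inv_mul_iff₀ (by positivity)]
    exact (hb n).2
  obtain ⟨ε, ε0, hε⟩ := hFARE A B Om w.v c (c ^ 2)⁻¹ hD hc
  obtain ⟨k, hk⟩ := exists_pow_lt₀ w.v_p_lt (Units.mk0 (c ^ 2) (by positivity))
  have p0 : 0 < w.v w.p ^ k := by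
    rw [w.vp]
    have := w.prime.pos
    positivity
  obtain ⟨r, hr⟩ := (a_RES w _ (w.loc_inf hU)).1 (ε * w.v w.p ^ k) (by positivity)
  choose f f1 f2 using fun n : ℕ => hr.2 ((w.p : Om) ^ k * X ((n + 1) • P))
    (fun g hg => by rw [map_mul, map_pow, map_natCast, (hP.nsmul (n + 1)).x g hg.2]) (by
      rw [map_mul, map_pow]
      exact (mul_le_mul' hk.le (hM n)).trans_eq (mul_inv_cancel₀ (pow_pos hc 2).ne'))
  obtain ⟨i, j, hij, e⟩ := Finite.exists_ne_map_eq_of_infinite fun n => (⟨f n, f1 n⟩ : r)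
  wlog hl : i < j generalizing i j
  · exact this j i hij.symm e.symm (by omega)
  have e1 : f i = f j := congrArg Subtype.val e
  have h2 : w.v (X ((j + 1) • P) - X ((i + 1) • P)) < ε := by
    have := w.v.map_sub_lt (f2 j) (e1 ▸ f2 i)
    rw [sub_sub_sub_cancel_right, ← mul_sub, map_mul, map_pow, mul_comm] at this
    exact lt_of_mul_lt_mul_right this p0.le
  rcases hε _ _ (hb j).1 (hb i).1 (hM j) (hM i) h2 with h | h
  · refine hn (j - i) (by omega) ?_
    rwa [show j + 1 = j - i + (i + 1) by omega, add_nsmul, add_sub_cancel_right] at h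
  · exact hn (j + 1 + (i + 1)) (by omega) (by rwa [add_nsmul])

end Pool.Agent.P.MP_ab3ecb_nt.TK
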