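import Pool.Agent.P.MP_ab3ecb_nt.TK.IfaceC

/-! Step KEY. -/

set_option autoImplicit false
set_option linter.unusedSectionVars false

namespace Pool.Agent.P.MP_ab3ecb_nt.TK

open Filter Topology NumberField IsDedekindDomain
open Pool.Agent.P.MP_ab3ecb_nt.TP (Dn)
open Pool.Agent.P.MP_8b7eba_nt.R2 hiding Sm
open scoped Classical NNReal

namespace KEYx

variable {K : Type} [Field K] [NumberField K] [Algebra K Om] [Algebra K ℝ] [Cmp K] {A B : 𝓞 K}
  {f : ℝ →+ Pt A B ℝ}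

lemma f_int (hf : Unif f) (k : ℤ) : f k = 0 := (hf.ker _).2 ⟨k, rfl⟩

lemma irr (hf : Unif f) {P : Pt A B K} (hP : NT P) {u : ℝ}
    (hu : f u = 2 • bc ℝ P) : Irrational u := by
  rintro ⟨x, rfl⟩
  have h1 : f ((x.den : ℤ) • (x : ℝ)) = 0 := by
    rw [← f_int hf x.num]
    congr 1
    rw [zsmul_eq_mul]
    exact_mod_cast Rat.den_mul_eq_num x
  rw [map_zsmul, hu, ← natCast_zsmul, ← mul_smul, ← map_zsmul, bc_eq_zero] at h1
  have h2 := hP _ h1
  have h3 := x.den_pos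
  omega

lemma tors (hf : Unif f) {V : Pt A B Om} {p : ℕ} (hp : p ≠ 0) (hV : IsR 1 V (f (1 / p ^ 2)))
    (c : ℤ) : c • V = 0 ↔ (p : ℤ) ^ 2 ∣ c := by
  have h0 : (p : ℝ) ^ 2 ≠ 0 := by positivity
  rw [(hV.zsmul c).zero_iff, ← map_zsmul, hf.ker, zsmul_eq_mul, mul_one_div]
  constructor
  · rintro ⟨k, hk⟩
    rw [div_eq_iff h0] at hk
    exact ⟨k, by exact_mod_cast hk.trans (mul_comm _ _)⟩
  · rintro ⟨k, rfl⟩
    exact ⟨k, by push_cast; field_simp⟩

end KEYx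

theorem p_KEY (hWP : S_WP) (hKA : S_KA) (hKF : S_KF) (hKR : S_KR) (hQR : S_QR) (hALG : S_ALG)
    (hOTH : S_OTH) :
    S_KEY := by
  intro K _ _ _ _ _ A B F P R l s t p q C hP hN hO hp2 ht htc r j hr
  by_contra hc
  have hrp : r ≠ p := fun h => hc (h ▸ C.dp j)
  have hrq : r ≠ q := fun h => hc (h ▸ C.dq j)
  obtain ⟨f, hf⟩ := hWP A B C.hD
  obtain ⟨u, hu⟩ := hf.two (bc ℝ P)
  have hirr := KEYx.irr hf hP hu
  obtain ⟨e, k, m₀, hm, hR0, hRn⟩ := hKA A B F f R (s * u / t) l s t r j hf hN hr hc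
  obtain ⟨g1, g2, g3⟩ := hALG A B C.hD
  have ht0 : (t : ℝ) ≠ 0 := by positivity
  have hr0 : (r : ℝ) ≠ 0 := by exact_mod_cast hr.ne_zero
  have hp0 : (p : ℝ) ≠ 0 := by exact_mod_cast C.hp.ne_zero
  have hM : 0 < t * r ^ e := mul_pos ht (pow_pos hr.pos e)
  have hirr' : Irrational (u / t - k / r ^ e) := by
    have h := (hirr.div_natCast ht.ne').sub_ratCast ((k : ℚ) / r ^ e)
    push_cast at h
    exact h
  have e1 : (t * r ^ e) • f (u / t - k / r ^ e) = bc ℝ ((r ^ e) • 2 • P) := by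
    rw [map_nsmul, map_nsmul, ← hu, ← map_nsmul, ← map_nsmul, ← sub_eq_zero, ← map_sub,
      ← KEYx.f_int hf (-(t * k))]
    congr 1
    simp only [nsmul_eq_mul]
    push_cast
    field_simp
    ring
  obtain ⟨P', hP'⟩ := g1 (f (u / t - k / r ^ e)) ((t * r ^ e : ℕ) : ℤ) ((r ^ e) • 2 • P)
    (by exact_mod_cast hM.ne') (by rw [natCast_zsmul, e1])
  have e2 : (t * r ^ e) • P' = rt ((r ^ e) • 2 • P) := by
    have h := (hP'.nsmul (t * r ^ e))
    rw [e1] at h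
    simpa only [act_one] using h.left (isR_rt 1 _)
  obtain ⟨V, hV⟩ := g1 (f (1 / p ^ 2)) ((p : ℤ) ^ 2) 0 (pow_ne_zero 2 (by exact_mod_cast C.hp.ne_zero)) (by
    rw [map_zero, ← map_zsmul, ← KEYx.f_int hf 1]
    congr 1
    simp only [zsmul_eq_mul]
    push_cast
    field_simp)
  have hT := KEYx.tors hf C.hp.ne_zero hV
  obtain ⟨b, hb⟩ := C.hp.odd_of_ne_two hp2
  have hab : ((b : ℤ) + 1) + -(b : ℤ) = 1 := by ring
  have hab' : ((b : ℤ) + 1) - -(b : ℤ) = p := by rw [hb]; push_cast; ring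
  have hp1 := C.hp.two_le
  have nd : ∀ c : ℤ, c ≠ 0 → |c| ≤ p → c • V ≠ 0 := fun c h0 h1 h2 => by
    have h3 := Int.le_of_dvd (abs_pos.2 h0) ((dvd_abs _ _).2 ((hT c).1 h2))
    have h4 : (2 : ℤ) ≤ p := by exact_mod_cast hp1
    nlinarith
  have hV2 : ∀ c : ℤ, p ^ 2 • c • V = 0 := fun c => by
    rw [← natCast_zsmul, ← mul_smul, hT]
    push_cast
    exact dvd_mul_right _ _
  obtain ⟨hFP, hFV⟩ := fixP_stab P' V
  have hR' : IsR 1 (rt (R + m₀ • 2 • P) - (t * m₀ - s) • P')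
      (bc ℝ R + f (s * u / t + (t * m₀ - s) * (k / r ^ e))) := by
    have h := (isR_rt 1 (R + m₀ • 2 • P)).sub (hP'.zsmul (t * m₀ - s))
    convert h using 1
    rw [map_add (bc _), map_zsmul, map_nsmul, ← hu, ← map_zsmul, ← map_zsmul, add_sub_assoc,
      ← map_sub]
    congr 2
    simp only [zsmul_eq_mul]
    push_cast
    field_simp
    ring
  have hα : (io (ev F (rt (R + m₀ • 2 • P) - (t * m₀ - s) • P'))).re < 0 := by
    rw [show io (ev F _) = _ from hR'.ev F, Complex.ofReal_re]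
    exact_mod_cast hRn
  have hα0 : ev F (rt (R + m₀ • 2 • P) - (t * m₀ - s) • P') ≠ 0 := fun h => by
    rw [h] at hα
    simp at hα
  have hFR : FixP (stab P' V) (rt (R + m₀ • 2 • P) - (t * m₀ - s) • P') :=
    (fixP_rt (stab_le _ _) _).sub (hFP.zsmul _)
  have hR1 : rt (R + m₀ • 2 • P) - (t * m₀ - s) • P' ≠ 0 := fun h => hR0 (hR'.zero_iff.1 h)
  obtain ⟨n₀, hn₀, hNm⟩ := hKF A B F (2 • P) R l s t p q C (stab P' V) P' (((b : ℤ) + 1) • V)
    ((-(b : ℤ)) • V) _ 2 (g3 P' V) hFP (hFV.zsmul _) (hFV.zsmul _) hFR (hV2 _) (hV2 _)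
    (nd _ (by omega) (abs_le.2 ⟨by omega, by omega⟩)) (nd _ (by omega) (abs_le.2 ⟨by omega, by omega⟩))
    (by rw [← add_smul, hab]; exact nd _ (by omega) (abs_le.2 ⟨by omega, by omega⟩))
    (by rw [← sub_smul, hab']; exact nd _ (by omega) (abs_le.2 ⟨by omega, by omega⟩))
    hR1 hα0 (by
      filter_upwards [hm] with m ⟨c, hc⟩
      obtain rfl : m = m₀ + r ^ e * c := by omega
      have h1 : ((t : ℤ) * r ^ e) • P' = ((r : ℤ) ^ e) • rt (2 • P) := by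
        have h := e2
        rw [map_nsmul, ← natCast_zsmul, ← natCast_zsmul _ (r ^ e)] at h
        push_cast at h
        exact h
      rw [map_add, map_add, map_zsmul, map_zsmul]
      calc rt R + (m₀ + r ^ e * c) • rt (2 • P)
          = rt R + m₀ • rt (2 • P) + c • ((r : ℤ) ^ e) • rt (2 • P) := by module
        _ = _ := by rw [← h1]; module)
  have hcop : (t * r ^ e).Coprime (p * q) := Nat.Coprime.mul_left htc
    (Nat.Coprime.pow_left e (Nat.Coprime.mul_right ((Nat.coprime_primes hr C.hp).2 hrp)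
      ((Nat.coprime_primes hr C.hq).2 hrq)))
  obtain ⟨n, d, d', hn, hn', hd, hd', hneg, hpos⟩ := hKR A B f P' V ((r ^ e) • 2 • P) _ p q
    (t * r ^ e) n₀ _ _ C.hD hf hirr' C.hp C.hq C.ne hM hcop e2 hab hab' hP' hV hn₀
  have htau : tau ∈ stab P' V := by
    have h1 := (g2 1 P').2 ⟨_, hP'⟩
    have h2 := (g2 1 V).2 ⟨_, hV⟩
    rw [inv_one, one_mul, mul_one] at h1 h2
    exact ⟨(tauK K).2, h1, h2⟩
  obtain ⟨g, hg, hg', hlt', hlt⟩ := hQR (stab P' V) _ _ (g3 P' V) (hFR.ev F)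
    ((hFP.bt (hFV.zsmul _) (hFV.zsmul _) d).mul (hFP.bt (hFV.zsmul _) (hFV.zsmul _) d')) hα0
    (fun h => by rw [h] at hneg; simp at hneg) (hNm n d d' hn hn' hd hd') htau hα hneg
  by_cases g0 : g ∈ GK K
  · exact (hpos g g0 hg hg').not_gt hlt
  · exact (hOTH A B F _ _ g hO hFR hR1 g0 hg').not_gt hlt'

end Pool.Agent.P.MP_ab3ecb_nt.TK
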