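import Pool.Agent.P.MP_ab3ecb_nt.TK.Iface

/-! Step MUL. -/

set_option autoImplicit false
set_option linter.unusedSectionVars false

namespace Pool.Agent.P.MP_ab3ecb_nt.TK

open Filter Topology NumberField IsDedekindDomain
open Pool.Agent.P.MP_ab3ecb_nt.TP (Dn)
open scoped Classical NNReal

theorem p_MUL (hFG : S_FG) :
    S_MUL := by
  intro R _ _ A B L G _ _ _ _ v
  have h1 : ∀ (c : G) (P Q : Pt A B L), Sm v c P → Sm v c Q → Sm v c (P + Q) := by
    intro c P Q hP hQ
    obtain ⟨a, b⟩ := hFG A B L G v P Q hP.1 hQ.1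
    refine ⟨a, ?_⟩
    rw [show Z (P + Q) = Z (P + Q) - Z P - Z Q + Z P + Z Q by ring]
    exact v.map_add_le (v.map_add_le (b.trans ((pow_le_of_le_one zero_le
      (max_le hP.1.Z_lt.le hQ.1.Z_lt.le) (by norm_num)).trans (max_le hP.2 hQ.2))) hP.2) hQ.2
  have h2 : ∀ (c : G) (P : Pt A B L) (n : ℤ), Sm v c P → Sm v c (n • P) := by
    intro c P n hP
    induction n using Int.induction_on with
    | zero => rw [zero_smul]; exact sm_zero c
    | succ n ih => rw [add_smul, one_smul]; exact h1 c _ _ ih hP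
    | pred n ih => rw [sub_smul, one_smul, sub_eq_add_neg]; exact h1 c _ _ ih hP.neg
  refine ⟨h1, h2, fun P n hn hP => ?_⟩
  by_cases h0 : v (Z P) = 0
  · rw [hP.eq_zero h0, smul_zero]
  have st : ∀ (m : ℤ) (Q : Pt A B L), Sm v (v (Z P)) Q →
      v (Z (m • P + Q) - Z (m • P) - Z Q) ≤ v (Z P) ^ 5 := fun m Q hQ =>
    (hFG A B L G v _ Q (h2 _ P m hP.sm).1 hQ.1).2.trans
      (pow_le_pow_left' (max_le (h2 _ P m hP.sm).2 hQ.2) 5)
  have key : ∀ m : ℤ, v (Z (m • P) - m * Z P) ≤ v (Z P) ^ 5 := fun m => by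
    induction m using Int.induction_on with
    | zero => simp
    | succ m ih =>
      refine le_of_eq_of_le (congrArg v ?_) (v.map_add_le (st m P hP.sm) ih)
      rw [add_smul, one_smul]; push_cast; ring
    | pred m ih =>
      refine le_of_eq_of_le (congrArg v ?_) (v.map_add_le (st (-m) (-P) hP.sm.neg) ih)
      rw [sub_smul, one_smul, sub_eq_add_neg _ P, Z_neg]; push_cast; ring
  have e : v (n * Z P) = v (Z P) := by rw [map_mul, hn, one_mul]
  rw [← sub_add_cancel (Z (n • P)) (n * Z P), v.map_add_eq_of_lt_right, e]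
  rw [e]
  refine (key n).trans_lt ?_
  simpa using pow_lt_pow_right_of_lt_one₀ (zero_lt_iff.2 h0) hP.Z_lt (show 1 < 5 by norm_num)

end Pool.Agent.P.MP_ab3ecb_nt.TK
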