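import Pool.Agent.P.MP_ab3ecb_nt.TK.IfaceC

/-! Step OTH. -/

set_option autoImplicit false
set_option linter.unusedSectionVars false

namespace Pool.Agent.P.MP_ab3ecb_nt.TK

open Filter Topology NumberField IsDedekindDomain
open Pool.Agent.P.MP_ab3ecb_nt.TP (Dn)
open Pool.Agent.P.MP_8b7eba_nt.R2 hiding Sm
open scoped Classical NNReal

theorem p_OTH :
    S_OTH := by
  intro K _ _ _ _ _ A B F U R g hO hR h0 hg hU
  have re : ∀ x, Fix U x → ((io (g x)).re : ℂ) = io (g x) := fun x hx => by
    rw [← Complex.conj_eq_iff_re, ← a_TAU.1]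
    have := congrArg g (hx _ hU)
    rw [← AlgEquiv.mul_apply, ← mul_assoc, ← mul_assoc, mul_inv_cancel, one_mul,
      AlgEquiv.mul_apply] at this
    rw [this]
  have rk : ∀ k : K, ((io (g (algebraMap K Om k))).re : ℂ) = io (g (algebraMap K Om k)) :=
    fun k => re _ (fix_K hR.1 k)
  let σ : K →+* ℝ :=
    { toFun := fun k => (io (g (algebraMap K Om k))).re
      map_one' := by simp
      map_zero' := by simp
      map_add' := fun a b => by simp
      map_mul' := fun a b => Complex.ofReal_injective (by
        rw [Complex.ofReal_mul, rk, rk, rk, map_mul, map_mul, map_mul]) }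
  have hσ : σ ≠ algebraMap K ℝ := fun h => hg fun k => io.injective (by
    rw [Cmp.eq, ← h]; exact (rk k).symm)
  have he := congrArg (fun z => io (g z)) (eqn h0)
  have h1 := hO σ hσ (io (g (X R))).re (io (g (Y R))).re (Complex.ofReal_injective (by
    push_cast
    rw [re _ hR.x, re _ hR.y]
    change _ = _ + ((io (g (algebraMap K Om A))).re : ℂ) * _ + ((io (g (algebraMap K Om B))).re : ℂ)
    rw [rk, rk]
    simp only [map_add, map_mul, map_pow] at he
    exact he))
  refine h1.trans_eq (Complex.ofReal_injective ?_)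
  rw [re _ (hR.ev F)]
  change Complex.ofRealHom _ = (io.comp (g : Om →+* Om)) _
  rw [ev, MvPolynomial.aeval_def, MvPolynomial.eval₂_comp_left, MvPolynomial.eval₂_comp_left]
  congr 1
  · ext a
    exact rk a
  · ext i
    fin_cases i
    exacts [re _ hR.x, re _ hR.y]

end Pool.Agent.P.MP_ab3ecb_nt.TK
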