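import Pool.Agent.P.MP_ab3ecb_nt.TK.IfaceC

/-! Step PROP. -/

set_option autoImplicit false
set_option linter.unusedSectionVars false

namespace Pool.Agent.P.MP_ab3ecb_nt.TK

open Filter Topology NumberField IsDedekindDomain
open Pool.Agent.P.MP_ab3ecb_nt.TP (Dn)
open Pool.Agent.P.MP_8b7eba_nt.R2 hiding Sm
open scoped Classical NNReal

namespace PROPx

/-- the integers of the completion -/
noncomputable abbrev Ov {K : Type} [Field K] [NumberField K] (v : HeightOneSpectrum (𝓞 K)) :=
  v.adicCompletionIntegers K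

theorem prop_apx {K : Type} [Field K] [NumberField K] (v : HeightOneSpectrum (𝓞 K)) (x : Ov v) :
    ∃ a : 𝓞 K, Valued.v ((x - algebraMap (𝓞 K) (Ov v) a : Ov v) : Kv v) < 1 := by
  obtain ⟨d, hd⟩ := (v.denseRange_algebraMap K).exists_dist_lt (x : Kv v) one_pos
  rw [dist_eq_norm, Valued.toNormedField.norm_lt_one_iff] at hd
  have h1 : Valued.v (algebraMap K (Kv v) d) ≤ 1 := by
    rw [← sub_sub_cancel (x : Kv v) (algebraMap K (Kv v) d)]
    exact Valuation.map_sub_le _ x.2 hd.le
  have e : ∀ y : K, Valued.v (algebraMap K (Kv v) y) = v.valuation K y :=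
    v.valuedAdicCompletion_eq_valuation'
  obtain ⟨a, ha⟩ := v.exists_valuation_sub_lt_of_integer (e d ▸ h1) 1
  refine ⟨a, ?_⟩
  rw [← e, map_sub] at ha
  have : ((x - algebraMap (𝓞 K) (Ov v) a : Ov v) : Kv v) = (x - algebraMap K (Kv v) d) -
      (algebraMap K (Kv v) (algebraMap (𝓞 K) K a) - algebraMap K (Kv v) d) := by
    rw [sub_sub_sub_cancel_right]
    rfl
  rw [this]
  exact Valuation.map_sub_lt _ hd ha

theorem prop_fin {K : Type} [Field K] [NumberField K] (v : HeightOneSpectrum (𝓞 K)) :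
    Finite (IsLocalRing.ResidueField (Ov v)) := by
  have ev : ∀ a : 𝓞 K, Valued.v ((algebraMap (𝓞 K) (Ov v) a : Ov v) : Kv v) = v.intValuation a :=
    fun a => (v.valuedAdicCompletion_eq_valuation' _).trans (v.valuation_of_algebraMap a)
  have hm : ∀ z : Ov v, z ∈ IsLocalRing.maximalIdeal (Ov v) ↔ Valued.v (z : Kv v) < 1 := fun z => by
    rw [IsLocalRing.mem_maximalIdeal, mem_nonunits_iff,
      HeightOneSpectrum.adicCompletionIntegers.isUnit_iff_valued_eq_one]
    exact ⟨fun h => lt_of_le_of_ne z.2 h, fun h => h.ne⟩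
  let ρ : 𝓞 K →+* IsLocalRing.ResidueField (Ov v) :=
    (IsLocalRing.residue (Ov v)).comp (algebraMap (𝓞 K) (Ov v))
  have hρ : Function.Surjective ρ := fun y => by
    obtain ⟨x, rfl⟩ := IsLocalRing.residue_surjective y
    obtain ⟨a, ha⟩ := prop_apx v x
    refine ⟨a, (sub_eq_zero.1 ?_).symm⟩
    rw [RingHom.comp_apply, ← map_sub, IsLocalRing.residue_eq_zero_iff, hm]
    exact ha
  have kρ : RingHom.ker ρ = v.asIdeal := by
    ext a
    rw [RingHom.mem_ker, RingHom.comp_apply, IsLocalRing.residue_eq_zero_iff, hm, ev,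
      v.intValuation_lt_one_iff_mem]
  have h1 : Finite (𝓞 K ⧸ RingHom.ker ρ) :=
    kρ ▸ v.asIdeal.finiteQuotientOfFreeOfNeBot v.ne_bot
  exact Finite.of_equiv _ (RingHom.quotientKerEquivOfSurjective hρ).toEquiv

end PROPx

theorem p_PROP :
    S_PROP := by
  intro K _ _ v
  exact (Valued.integer.properSpace_iff_completeSpace_and_isDiscreteValuationRing_integer_and_finite_residueField
    (K := Kv v)).2 ⟨inferInstance, inferInstanceAs (IsDiscreteValuationRing (PROPx.Ov v)),
      PROPx.prop_fin v⟩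

end Pool.Agent.P.MP_ab3ecb_nt.TK
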