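import Pool.Agent.P.MP_ab3ecb_nt.TK.IfaceC

/-! Step QR. -/

set_option autoImplicit false
set_option linter.unusedSectionVars false

namespace Pool.Agent.P.MP_ab3ecb_nt.TK

open Filter Topology NumberField IsDedekindDomain
open Pool.Agent.P.MP_ab3ecb_nt.TP (Dn)
open Pool.Agent.P.MP_8b7eba_nt.R2 hiding Sm
open scoped Classical NNReal

theorem p_QR :
    S_QR := by
  intro U a b hU ha hb a0 b0 h ht h1 h2
  by_contra h3
  push Not at h3
  obtain ⟨α, rfl⟩ := exists_root a two_ne_zero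
  obtain ⟨β, hβ⟩ := exists_root (-1 : Om) two_ne_zero
  have β0 : β ≠ 0 := fun e => by rw [e] at hβ; norm_num at hβ
  have hs := fun (H : Subgroup GQ) hH (hl : H ≤ U) =>
    a_SYM H _ α hH (fun e => a0 (by simp [e])) (ha.mono hl) (isKer_qc H α)
  have hf := a_CUP U b hb b0 2 (qc α) two_ne_zero (hs U (closed_of_open hU) le_rfl).1
  have hT : TC (U ⊓ MulAction.stabilizer GQ β) := fun g hg => by
    have e : (g⁻¹⁻¹ * tau * g⁻¹) β = β := by rw [inv_inv]; exact hg.2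
    refine (TP.a_QRD g⁻¹ β β β0 β0 e e).2.1 ?_
    have h4 : io (g⁻¹ β) ^ 2 = Complex.I ^ 2 := by rw [← map_pow, ← map_pow, hβ]; simp
    rcases sq_eq_sq_iff_eq_or_eq_neg.1 h4 with h4 | h4 <;> rw [h4] <;> simp
  have hw := fun w : Pl =>
    ((hs _ (w.loc_inf hU).closed inf_le_right).2.2.1 b (hb.mono inf_le_right) b0).2 (h w)
  obtain ⟨c, hc, c0, -, hN⟩ := (a_SYM U _ β (closed_of_open hU) β0 (hβ ▸ fix_one.neg)
    (isKer_qc U β)).2.2.2.2 _ hf.1 (a_ABHN _ _ (hU.inter (isOpen_stab β)) hT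
      ⟨hf.1.mono inf_le_left, 1, hf.2.1.mono inf_le_left⟩
      fun w => (hw w).mono (inf_le_inf_left _ inf_le_left))
  rw [hβ] at hN
  obtain ⟨q, hq⟩ := (hc.nrm (relIndex_ne_zero hU ⊤)).rat
  have hr : ∀ g : GQ, g⁻¹ * tau * g ∈ U → (io (g c)).re ≠ 0 ∧
      ((io (g c)).re < 0 ↔ (io (g (α ^ 2))).re < 0 ∧ (io (g b)).re < 0) := fun g hg => by
    have hl := (Subgroup.zpowers_le (H := U)).2 hg
    obtain ⟨h4, -, h5⟩ := TP.a_QRD g b _ b0 a0 (hb _ hg) (ha _ hg)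
    obtain ⟨-, h6, h7⟩ := TP.a_QRD g c (-1) c0 (by norm_num) (hc _ hg) (by simp)
    refine ⟨h6, not_iff_not.1 ?_⟩
    rw [← h5, ← (hs _ h4 hl).2.2.1 b (hb.mono hl) b0, hN _ hl h4, h7]
    simp
  refine lt_asymm (TP.a_QRA q (fun e => c0 ((nrm_eq_zero (relIndex_ne_zero hU ⊤)).1 (by simp [hq, e])))
    fun w => hq ▸ TP.a_QRB U c hU hc
      (fun w => (hN _ inf_le_right (w.loc_inf hU).closed).1 (hw w)) w)
    (TP.a_QRC U c q hU hc c0 ht ((hr 1 (by simpa using ht)).2.2 ⟨h1, h2⟩) (fun g hg hg' => ?_) hq)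
  exact lt_of_le_of_ne (not_lt.1 fun e => (h3 g hg hg' ((hr g hg').2.1 e).1).not_gt
    ((hr g hg').2.1 e).2) (hr g hg').1.symm

end Pool.Agent.P.MP_ab3ecb_nt.TK
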