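import Pool.Agent.P.MP_ab3ecb_nt.TK.IfaceC

/-! Step RAT. -/

set_option autoImplicit false
set_option linter.unusedSectionVars false

namespace Pool.Agent.P.MP_ab3ecb_nt.TK

open Filter Topology NumberField IsDedekindDomain
open Pool.Agent.P.MP_ab3ecb_nt.TP (Dn)
open Pool.Agent.P.MP_8b7eba_nt.R2 hiding Sm
open scoped Classical NNReal

namespace RATx

theorem of_fix {K : Type} [Field K] [NumberField K] [Algebra K Om] {x : Om} (h : Fix (GK K) x) :
    ∃ k : K, algebraMap K Om k = x := by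
  let L : IntermediateField ℚ Om := (algebraMap K Om).toRatAlgHom.fieldRange
  have h1 : x ∈ IntermediateField.fixedField L.fixingSubgroup := by
    rw [IntermediateField.mem_fixedField_iff]
    exact fun g hg => h g fun k => (IntermediateField.mem_fixingSubgroup_iff _ _).1 hg _ ⟨k, rfl⟩
  rw [InfiniteGalois.fixedField_fixingSubgroup] at h1
  exact h1

end RATx

theorem p_RAT (hSQ : S_SQ) (hLNK : S_LNK) :
    S_RAT := by
  intro K _ _ _ A B F S R hS h0 h
  by_cases e0 : ev F R = 0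
  · rw [e0]; exact IsSquare.zero
  have e1 : ev F (rt R) = algebraMap K Om (ev F R) := ev_bc F R
  have e2 : ev F (rt R) ≠ 0 := by rw [e1]; exact (map_ne_zero _).2 e0
  obtain ⟨b1, h1⟩ := a_PL.2.2.2.2.2.1 _ e2
  obtain ⟨b2, h2⟩ : ∃ b : ℕ, ∀ w : Pl, b < w.p → w.v (X (rt R)) ≤ 1 := by
    by_cases h : X (rt R) = 0
    · exact ⟨0, fun w _ => by rw [h, map_zero]; exact zero_le_one⟩
    · obtain ⟨b, hb⟩ := a_PL.2.2.2.2.2.1 _ h
      exact ⟨b, fun w hw => (hb w hw).le⟩
  obtain ⟨b3, h3⟩ := (hS.image fun r => Ideal.absNorm (r.asIdeal.under ℤ)).bddAbove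
  obtain ⟨β, hβ⟩ := exists_root (ev F (rt R)) two_ne_zero
  have h4 := a_GENP.1 (GK K) (MulAction.stabilizer GQ β) (b1 + b2 + b3 + 2) open_GK (isOpen_stab β)
    fun w φ hw hK hφ => by
      obtain ⟨v, hv⟩ := (hLNK K).1 w
      have hs : v ∈ S := by_contra fun h => by
        have h6 : Ideal.absNorm (v.asIdeal.under ℤ) ≤ b3 := h3 ⟨_, h, rfl⟩
        rw [(hLNK K).2.2 w v hv, Ideal.absNorm_span_singleton, Algebra.norm_self] at h6
        have : w.p ≤ b3 := by simpa using h6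
        omega
      have h5 := hSQ A B F v w (GK K) (rt R) ⊤ (fun _ => R) _ hv (by omega)
        (fixP_rt le_rfl R) (mt bc_eq_zero.1 h0) (h2 w (by omega)) (h1 w (by omega)) inferInstance
        (.of_forall fun _ => .inl (sub_self _)) tendsto_const_nhds fun _ => h ⟨_, hs⟩
      rw [← hβ] at h5
      exact (sq_iff (by rw [hβ, e1]; exact fix_K inf_le_right _)).1 h5 φ ⟨hφ.1, hK⟩
  obtain ⟨c, rfl⟩ := RATx.of_fix (K := K) (x := β) fun σ hσ => h4 hσ
  exact ⟨c, (algebraMap K Om).injective (by rw [← e1, ← hβ, map_mul, sq])⟩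

end Pool.Agent.P.MP_ab3ecb_nt.TK
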