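import Pool.Agent.P.MP_ab3ecb_nt.TK.Iface

/-! Step RS. -/

set_option autoImplicit false
set_option linter.unusedSectionVars false

namespace Pool.Agent.P.MP_ab3ecb_nt.TK

open Filter Topology NumberField IsDedekindDomain
open Pool.Agent.P.MP_ab3ecb_nt.TP (Dn)
open scoped Classical NNReal

namespace RSx

variable {R : Type} [CommRing R] [Algebra R ℝ] {A B : R}

/-- A real point with a large first coordinate lies to the right. -/
lemma big {ι : Type} {l : Filter ι} {Q : ι → Pt A B ℝ} (h : ToO l Q) (r : ℝ) :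
    ∀ᶠ i in l, Q i = 0 ∨ r ≤ X (Q i) := by
  filter_upwards [h r, h (1 + |(A : ℝ)| + |(B : ℝ)|)] with i h1 h2
  by_cases h0 : Q i = 0
  · exact .inl h0
  have h3 := h1.resolve_left h0
  have h4 := h2.resolve_left h0
  rw [Real.norm_eq_abs] at h3 h4
  refine .inr (by_contra fun h5 => ?_)
  have h6 : X (Q i) < 0 := by_contra fun h6 => h5 (by rwa [abs_of_nonneg (not_lt.1 h6)] at h3)
  rw [abs_of_neg h6] at h4
  have h7 := eqn h0
  have h8 := sq_nonneg (Y (Q i))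
  have ha := abs_nonneg (A : ℝ)
  have hb := abs_nonneg (B : ℝ)
  have ha' := neg_abs_le (A : ℝ)
  have hb' := le_abs_self (B : ℝ)
  generalize X (Q i) = x at *
  obtain ⟨t, rfl⟩ : ∃ t, x = -t := ⟨-x, (neg_neg x).symm⟩
  rw [neg_neg] at h4
  have h9 : 1 ≤ t := by linarith
  have e1 : -((A : ℝ) * t) ≤ |(A : ℝ)| * t := by nlinarith
  have e2 : |(B : ℝ)| ≤ |(B : ℝ)| * t := le_mul_of_one_le_right hb h9
  have e3 : (1 + |(A : ℝ)| + |(B : ℝ)|) * t ≤ t * t := by nlinarith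
  have e4 : t * t ≤ t * t * t := le_mul_of_one_le_right (by nlinarith) h9
  nlinarith

lemma alg {x y x2 y2 a l m : ℝ} (hd : x < x2)
    (hl : l * (x - x2) = y - y2) (hl' : l * (y + y2) = x ^ 2 + x * x2 + x2 ^ 2 + a)
    (hm : m * (x - x2) = y - -y2) (hm' : m * (y + -y2) = x ^ 2 + x * x2 + x2 ^ 2 + a)
    (h : (3 * x ^ 2 + a) ^ 2 < 4 * y ^ 2 * (x2 + 2 * x)) :
    (l ^ 2 - x - x2 - x) * (m ^ 2 - x - x2 - x) < 0 := by
  have e1 : (l ^ 2 - x - x2 - x) * (x2 - x) = 3 * x ^ 2 + a - 2 * y * l := by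
    linear_combination -l * hl + hl'
  have e2 : (m ^ 2 - x - x2 - x) * (x2 - x) = 3 * x ^ 2 + a - 2 * y * m := by
    linear_combination -m * hm + hm'
  have e3 : l * m * (x2 - x) = -(x ^ 2 + x * x2 + x2 ^ 2 + a) := by
    linear_combination -l * hm - hl'
  have e4 : (l + m) * (x2 - x) = -2 * y := by linear_combination -hl - hm
  have e5 : (l ^ 2 - x - x2 - x) * (m ^ 2 - x - x2 - x) * (x2 - x) ^ 3 =
      (x2 - x) * ((3 * x ^ 2 + a) ^ 2 - 4 * y ^ 2 * (x2 + 2 * x)) := by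
    have : (l ^ 2 - x - x2 - x) * (m ^ 2 - x - x2 - x) * (x2 - x) ^ 3 =
        ((l ^ 2 - x - x2 - x) * (x2 - x)) * ((m ^ 2 - x - x2 - x) * (x2 - x)) * (x2 - x) := by ring
    rw [this, e1, e2]
    linear_combination 4 * y ^ 2 * e3 - 2 * y * (3 * x ^ 2 + a) * e4
  have h1 : 0 < x2 - x := sub_pos.2 hd
  have h2 := mul_neg_of_pos_of_neg h1 (sub_neg.2 h)
  rw [← e5] at h2
  exact neg_of_mul_neg_left h2 (pow_pos h1 3).le

end RSx

theorem p_RS (hLB : S_LB) :
    S_RS := by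
  intro R _ _ A B ι l Q hQ
  refine ⟨fun R x hx => ?_, fun V hV => ?_⟩
  · by_cases hR : R = 0
    · subst hR
      filter_upwards [RSx.big hQ (x + 1)] with i hi
      rw [zero_add]
      exact iff_of_true (hi.imp_right fun h => by linarith) (.inl rfl)
    obtain ⟨-, h1, h2, -⟩ := hLB A B ℝ ι l (fun _ => R) Q R (toA_const l hR) hQ
    rcases (hx hR).lt_or_gt with h | h
    · filter_upwards [h1, h2.eventually (gt_mem_nhds h)] with i h3 h4
      exact iff_of_false (fun h5 => h5.elim h3 fun h6 => lt_asymm h4 h6)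
        fun h5 => h5.elim hR fun h6 => lt_asymm h h6
    · filter_upwards [h2.eventually (lt_mem_nhds h)] with i h4
      exact iff_of_true (.inr h4) (.inr h)
  have h0 : V ≠ 0 := fun h => hV (by rw [h, smul_zero])
  have hy : Y V ≠ 0 := fun h => hV <| by
    have h1 : V = -V := pt_ext h0 (neg_ne_zero.2 h0) (by simp) (by simp [h])
    rw [two_smul]
    exact add_eq_zero_iff_eq_neg.2 h1
  have hy' : 0 < 4 * Y V ^ 2 := by positivity
  filter_upwards [RSx.big hQ (X V + 1),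
    RSx.big hQ ((3 * X V ^ 2 + A) ^ 2 / (4 * Y V ^ 2) - 2 * X V + 1)] with i h1 h2 hi
  have h3 : X V < X (Q i) := by linarith [h1.resolve_left hi]
  have h4 : (3 * X V ^ 2 + A) ^ 2 < 4 * Y V ^ 2 * (X (Q i) + 2 * X V) := by
    rw [← div_lt_iff₀' hy']
    linarith [h2.resolve_left hi]
  have h5 : V + Q i ≠ 0 := fun h => h3.ne (by rw [add_eq_zero_iff_eq_neg.1 h, X_neg])
  have h6 : V + -Q i ≠ 0 := fun h => h3.ne (by rw [add_neg_eq_zero.1 h])
  rw [sub_eq_add_neg]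
  refine ⟨h5, h6, ?_⟩
  obtain ⟨a, a1, -, a2, a3⟩ := add_spec h0 hi h5
  obtain ⟨b, b1, -, b2, b3⟩ := add_spec h0 (neg_ne_zero.2 hi) h6
  rw [X_neg] at b1
  rw [X_neg, Y_neg] at b2 b3
  rw [a1, b1]
  exact RSx.alg h3 a2 a3 b2 b3 h4

end Pool.Agent.P.MP_ab3ecb_nt.TK
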