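import Pool.Agent.P.MP_ab3ecb_nt.TK.IfaceC

/-! Step SIG. -/

set_option autoImplicit false
set_option linter.unusedSectionVars false

namespace Pool.Agent.P.MP_ab3ecb_nt.TK

open Filter Topology NumberField IsDedekindDomain
open Pool.Agent.P.MP_ab3ecb_nt.TP (Dn)
open Pool.Agent.P.MP_8b7eba_nt.R2 hiding Sm
open scoped Classical NNReal

namespace SIGx

variable {K : Type} [Field K] [NumberField K] {A B : 𝓞 K} {L : Type} [Field L] [Algebra (𝓞 K) L]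
  [DecidableEq L] (v : Valuation L ℝ≥0)

lemma far {T : Pt A B L} (h : T ≠ 0) : ∃ c : ℝ≥0, 0 < c ∧ c ≤ 1 ∧ ¬ Sm v c T := by
  by_cases h1 : E1 v T
  · have h2 : 0 < v (Z T) := pos_iff_ne_zero.2 fun h0 => h (h1.eq_zero h0)
    exact ⟨v (Z T) / 2, half_pos h2, (NNReal.half_le_self _).trans h1.Z_lt.le,
      fun h3 => (NNReal.half_lt_self h2.ne').not_ge h3.2⟩
  · exact ⟨1, one_pos, le_rfl, fun h3 => h1 h3.1⟩

lemma back (hMUL : S_MUL) {c : ℝ≥0} {R T : Pt A B L} {p k N : ℕ} (hN : N.Coprime p)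
    (hT : p ^ k • T = 0) (hR : Sm v c (N • R)) (h : Sm v c (R - T)) : Sm v c T := by
  obtain ⟨m1, m2, -⟩ := hMUL A B L _ v
  obtain ⟨x, y, hxy⟩ : IsCoprime (N : ℤ) ((p ^ k : ℕ) : ℤ) :=
    Nat.isCoprime_iff_coprime.2 (hN.pow_right k)
  have h1 := m2 c _ x (m1 c _ _ hR (m2 c _ (-N) h))
  have h2 : x • (N • R + (-N : ℤ) • (R - T)) = T := by
    have h3 : ((p ^ k : ℕ) : ℤ) • T = 0 := by rw [natCast_zsmul, hT]
    calc _ = (x * N) • T + y • ((p ^ k : ℕ) : ℤ) • T := by rw [h3, ← natCast_zsmul R]; module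
      _ = T := by rw [smul_smul, ← add_smul, hxy, one_smul]
  rwa [h2] at h1

end SIGx

open SIGx in
theorem p_SIG (hMUL : S_MUL) (hCL : S_CL) (hFARE : S_FARE) (hFI : S_FI) :
    S_SIG := by
  intro K _ _ _ A B w U P V W p q k hD hU hP hV hW hp hq kV kW V0 W0 S0 D0
  obtain ⟨c1, p1, l1, n1⟩ := far w.v V0
  obtain ⟨c2, p2, -, n2⟩ := far w.v S0
  obtain ⟨c3, p3, -, n3⟩ := far w.v D0
  obtain ⟨c, pc, lc, a1, a2, a3⟩ : ∃ c : ℝ≥0, 0 < c ∧ c ≤ 1 ∧ ¬ Sm w.v c V ∧ ¬ Sm w.v c (V + W) ∧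
      ¬ Sm w.v c (V - W) :=
    ⟨min c1 (min c2 c3), by positivity, (min_le_left _ _).trans l1,
      fun h => n1 (h.mono (min_le_left _ _)),
      fun h => n2 (h.mono ((min_le_right _ _).trans (min_le_left _ _))),
      fun h => n3 (h.mono ((min_le_right _ _).trans (min_le_right _ _)))⟩
  obtain ⟨M, M1, M2, M3⟩ : ∃ M : ℝ≥0, 1 ≤ M ∧ (c ^ 2)⁻¹ ≤ M ∧ w.v (X W) ≤ M :=
    ⟨max 1 (max (c ^ 2)⁻¹ (w.v (X W))), le_max_left _ _, le_max_of_le_right (le_max_left _ _),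
      le_max_of_le_right (le_max_right _ _)⟩
  have M0 : 0 < M := one_pos.trans_le M1
  obtain ⟨ε, pε, hε⟩ := hFARE A B Om w.v c M hD pc
  have v4 : 0 < w.v 4 := w.v.pos_iff.2 (by norm_num)
  obtain ⟨b, pb, b1, b2, b3⟩ : ∃ b : ℝ≥0, 0 < b ∧ b ≤ c ∧ b * M ≤ 1 ∧ b * M ^ 2 < ε * w.v 4 := by
    refine ⟨min c (min M⁻¹ (ε * w.v 4 / 2 / M ^ 2)), by positivity, min_le_left _ _, ?_, ?_⟩
    · rw [← le_div_iff₀ M0, one_div]
      exact (min_le_right _ _).trans (min_le_left _ _)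
    · refine lt_of_le_of_lt ?_ (NNReal.half_lt_self (mul_pos pε v4).ne')
      rw [← le_div_iff₀ (pow_pos M0 2)]
      exact (min_le_right _ _).trans (min_le_right _ _)
  obtain ⟨N, pN, hN⟩ := hFI A B w U P b hD hU hP pb
  obtain ⟨n₀, N', e, pn, cop, -, har⟩ := TP.a_AR p q N hp hq pN
  obtain ⟨m1, m2, -⟩ := hMUL A B Om _ w.v
  have mul : ∀ m : ℤ, (N : ℤ) ∣ m → Sm w.v b (m • P) := by
    rintro _ ⟨m, rfl⟩
    rw [mul_comm, mul_smul, natCast_zsmul]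
    exact m2 _ _ _ hN
  have key : ∀ d : ℕ, N ∣ N' * d →
      d • P - V ≠ 0 ∧ w.v (X (d • P - V)) ≤ M ∧ ε ≤ w.v (bt P V W d) := fun d hd => by
    have h1 : Sm w.v c (N' • d • P) := by
      have := (mul _ (Int.natCast_dvd_natCast.2 hd)).mono b1
      rwa [natCast_zsmul, mul_smul] at this
    obtain ⟨h2, h3⟩ := bound_of_not_sm lc fun h => a1 (back w.v hMUL cop kV h1 h)
    have h4 : w.v (X (d • P - V)) ≤ M := by
      refine le_trans ?_ M2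
      rwa [← one_div, le_div_iff₀ (pow_pos pc 2), mul_comm]
    refine ⟨h2, h4, not_lt.1 fun h5 => ?_⟩
    rcases hε _ _ h2 W0 h4 M3 h5 with h6 | h6
    · exact a2 (back w.v hMUL cop (by rw [smul_add, kV, kW, add_zero]) h1 (by rwa [← sub_sub]))
    · exact a3 (back w.v hMUL cop (by rw [smul_sub, kV, kW, sub_zero]) h1 (by rwa [← sub_add]))
  refine ⟨n₀, pn, fun n d d' h0 hn hd hd' => ?_⟩
  obtain ⟨e1, e2⟩ := har n d h0 hn hd
  obtain ⟨e3, e4⟩ := har n d' h0 hn hd'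
  obtain ⟨k1, k2, k3⟩ := key d e1
  have h1 : Sm w.v b (((d' : ℤ) - d) • P) := mul _ (by simpa using dvd_sub e4 e2)
  obtain ⟨-, h2, -⟩ := hCL A B Om _ w.v M _ _ k1 M1 k2 h1.1
    ((mul_le_mul_left h1.2 M).trans b2)
  rw [show d • P - V + ((d' : ℤ) - d) • P = d' • P - V by
    rw [← natCast_zsmul P d, ← natCast_zsmul P d']; module] at h2
  have h3 : 0 < w.v (bt P V W d) := pε.trans_le k3
  have h4 : bt P V W d ≠ 0 := w.v.pos_iff.1 h3
  have f1 : Fix (w.D ⊓ U) (bt P V W d) := (hP.bt hV hW d).mono inf_le_right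
  have f2 : Fix (w.D ⊓ U) (bt P V W d') := (hP.bt hV hW d').mono inf_le_right
  obtain ⟨y, hy, h5, -⟩ := (a_HENS w (w.D ⊓ U) inf_le_left).1 _ (f2.div f1) (by
    rw [div_sub_one h4, map_div₀, div_lt_iff₀ h3, mul_comm,
      show bt P V W d' - bt P V W d = X (d' • P - V) - X (d • P - V) by simp [bt]]
    exact ((h2.trans (mul_le_mul_left h1.2 _)).trans_lt b3).trans_le (mul_le_mul_left k3 _))
  refine ⟨y * bt P V W d, hy.mul f1, ?_⟩
  rw [mul_pow, ← h5]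
  field_simp

end Pool.Agent.P.MP_ab3ecb_nt.TK
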