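import Pool.Agent.P.MP_ab3ecb_nt.TK.IfaceC

/-! Step SQ. -/

set_option autoImplicit false
set_option linter.unusedSectionVars false

namespace Pool.Agent.P.MP_ab3ecb_nt.TK

open Filter Topology NumberField IsDedekindDomain
open Pool.Agent.P.MP_ab3ecb_nt.TP (Dn)
open Pool.Agent.P.MP_8b7eba_nt.R2 hiding Sm
open scoped Classical NNReal

theorem p_SQ (hCL : S_CL) (hEVC : S_EVC) (hCO : S_CO) (hPROP : S_PROP) :
    S_SQ := by
  intro K _ _ _ A B F r w U R l γ a hr hp hU hR hX hF hl h1 h2 hsq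
  have := hPROP r
  have k1 : ∀ᶠ m in l, γ m ≠ 0 ∧ w.v (algebraMap K Om (X (γ m))) ≤ 1 ∧
      w.v (algebraMap K Om (ev F (γ m)) - ev F R) < 1 := by
    filter_upwards [h1] with m hm
    have z := hm.Z_lt
    obtain ⟨b1, b2, b3⟩ := hCL A B Om ℝ≥0 w.v 1 R _ hR le_rfl hX hm (by simpa using z.le)
    rw [add_sub_cancel] at b1 b2 b3
    rw [one_pow, mul_one] at b2 b3
    have b4 : w.v (X (rt (γ m))) ≤ 1 := by
      simpa using w.v.map_add_le (b2.trans z.le) hX
    have b5 := (hEVC A B F).1 Om ℝ≥0 w.v _ _ b4 hX (b2.trans_lt z) (b3.trans_lt z)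
    rw [ev_bc] at b5
    exact ⟨fun e => b1 (by rw [e, map_zero]), by simpa using b4, b5⟩
  obtain ⟨c1, c2⟩ := (hCO A B (Kv r) ℤ l _ a).1 h2
  have a0 : a ≠ 0 := by
    rintro rfl
    obtain ⟨m, ⟨b1, b2, -⟩, b3⟩ := (k1.and (c2 2)).exists
    beta_reduce at b3
    rw [sub_zero, bc_eq_zero, X_bc] at b3
    exact absurd ((b3.resolve_left b1).trans ((hr.le_one _).1 b2)) (by norm_num)
  obtain ⟨c, hc⟩ := hsq a0
  have k2 := (hEVC A B F).2 (Kv r) ℤ l _ a (c1 a0)
  obtain ⟨m, ⟨-, -, b1⟩, b2⟩ := (k1.and (Metric.tendsto_nhds.1 k2 1 one_pos)).exists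
  rw [ev_bc, dist_eq_norm, hc] at b2
  generalize ev F (γ m) = q at b1 b2
  have b3 : w.v (algebraMap K Om q) ≤ 1 := by simpa using w.v.map_add_le b1.le hF.le
  have b4 : ‖c‖ ≤ 1 := by
    have e : c * c = algebraMap K (Kv r) q - (algebraMap K (Kv r) q - c * c) := by ring
    have : ‖c * c‖ ≤ 1 := by
      rw [e, sub_eq_add_neg]
      exact (IsUltrametricDist.norm_add_le_max _ _).trans
        (max_le ((hr.le_one q).1 b3) (by rw [norm_neg]; exact b2.le))
    rw [norm_mul] at this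
    nlinarith [norm_nonneg c]
  obtain ⟨n, hn⟩ := Metric.denseRange_iff.1
    (HeightOneSpectrum.denseRange_algebraMap K r) c 1 one_pos
  rw [dist_eq_norm] at hn
  have n0 : ‖algebraMap K (Kv r) n‖ ≤ 1 := by
    rw [← sub_sub_cancel c (algebraMap K (Kv r) n), sub_eq_add_neg]
    exact (IsUltrametricDist.norm_add_le_max _ _).trans (max_le b4 (by rw [norm_neg]; exact hn.le))
  have b5 : ‖algebraMap K (Kv r) (n ^ 2 - q)‖ < 1 := by
    have e : algebraMap K (Kv r) (n ^ 2 - q) = -((c - algebraMap K _ n) * (c + algebraMap K _ n)) +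
        -(algebraMap K _ q - c * c) := by
      rw [map_sub, map_pow]; ring
    have n1 := (IsUltrametricDist.norm_add_le_max _ _).trans (max_le b4 n0)
    rw [e]
    refine (IsUltrametricDist.norm_add_le_max _ _).trans_lt (max_lt ?_ (by rwa [norm_neg]))
    rw [norm_neg, norm_mul]
    exact mul_lt_one_of_nonneg_of_lt_one_left (norm_nonneg _) hn n1
  have b6 : w.v (algebraMap K Om n ^ 2 - ev F R) < 1 := by
    have := w.v.map_add_lt ((hr.lt_one _).2 b5) b1
    rwa [map_sub, map_pow, sub_add_sub_cancel] at this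
  have b7 : w.v (algebraMap K Om n) = 1 := by
    have := w.v.map_add_eq_of_lt_right (y := ev F R) (hF ▸ b6)
    rw [sub_add_cancel, hF, map_pow] at this
    exact (pow_eq_one_iff_of_nonneg zero_le two_ne_zero).1 this
  obtain ⟨y, y1, y2, -⟩ := (a_HENS w (w.D ⊓ U) inf_le_left).2 1 0 (-ev F R) _ fix_one fix_zero
    ((hU.ev F).mono inf_le_right).neg (fix_K (inf_le_right.trans hU.1) n) (by simp) b7.le
    (by simp [b7, Pl.v_two hp]) (by simpa [sub_eq_add_neg] using b6)
  exact ⟨y, y1, by linear_combination -y2⟩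

end Pool.Agent.P.MP_ab3ecb_nt.TK
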