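import Pool.Agent.P.MP_ab3ecb_nt.TK.Iface

/-! Step ULT. -/

set_option autoImplicit false
set_option linter.unusedSectionVars false

namespace Pool.Agent.P.MP_ab3ecb_nt.TK

open Filter Topology NumberField IsDedekindDomain
open Pool.Agent.P.MP_ab3ecb_nt.TP (Dn)
open scoped Classical NNReal

namespace ULTx

theorem cosets {G : Type} [AddCommGroup G] (P Q : G) :
    ∃ (i : (G ⧸ AddSubgroup.zmultiples P) × Fin 2) (m : ℤ),
      Q = (i.1.out + (i.2 : ℕ) • P) + m • 2 • P := by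
  obtain ⟨⟨h, n, rfl⟩, e⟩ := QuotientAddGroup.mk_out_eq_add (AddSubgroup.zmultiples P) Q
  rcases Int.even_or_odd' (-n) with ⟨m, hm | hm⟩
  · refine ⟨(QuotientAddGroup.mk Q, 0), m, ?_⟩
    have : n = -(2 * m) := by omega
    simp only [e, this, Fin.val_zero]
    module
  · refine ⟨(QuotientAddGroup.mk Q, 1), m, ?_⟩
    have : n = -(2 * m + 1) := by omega
    simp only [e, this, Fin.val_one]
    module

end ULTx

theorem p_ULT :
    S_ULT := by
  rintro K _ _ _ A B Γ F S a ⟨P, hP⟩ hc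
  rw [mem_closure_iff_clusterPt, ClusterPt, ← map_principal, ← Filter.push_pull', map_neBot_iff] at hc
  let U := Ultrafilter.of (comap (fun Q (r : S) => co (bc (r.1.adicCompletion K) Q))
    (𝓝 fun r => co (a r)) ⊓ 𝓟 {Q | Q ∈ Γ ∧ Neg F Q})
  have hU := le_inf_iff.1 (Ultrafilter.of_le (comap (fun Q (r : S) =>
    co (bc (r.1.adicCompletion K) Q)) (𝓝 fun r => co (a r)) ⊓ 𝓟 {Q | Q ∈ Γ ∧ Neg F Q}))
  have h1 : ∀ᶠ Q in (U : Filter _), Q ∈ Γ ∧ Neg F Q := le_principal_iff.1 hU.2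
  have h2 : ∀ᶠ Q in (U : Filter _), ∃ i : (Γ ⧸ AddSubgroup.zmultiples P) × Fin 2, ∃ m : ℤ,
      Q = ((i.1.out + (i.2 : ℕ) • P : Γ) : Pt A B K) + m • 2 • (P : Pt A B K) :=
    h1.mono fun Q hQ => by
      obtain ⟨i, m, e⟩ := ULTx.cosets P ⟨Q, hQ.1⟩
      exact ⟨i, m, congrArg Subtype.val e⟩
  obtain ⟨i, hi⟩ := Ultrafilter.eventually_exists_iff.1 h2
  generalize (i.1.out + (i.2 : ℕ) • P : Γ) = R at hi
  have h3 : ∀ Q : Pt A B K, ∃ m : ℤ, (∃ m : ℤ, Q = R + m • 2 • (P : Pt A B K)) →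
      Q = R + m • 2 • (P : Pt A B K) := fun Q => by
    by_cases h : ∃ m : ℤ, Q = R + m • 2 • (P : Pt A B K)
    · exact h.imp fun m hm _ => hm
    · exact ⟨0, fun h' => absurd h' h⟩
  choose m hm using h3
  refine ⟨P, P.2, R, R.2, U.map m, ?_, fun Q hQ => ?_, fun r => ?_⟩
  · obtain ⟨Q, ⟨-, Z, x, y, h, e, hn⟩, n, rfl⟩ := (h1.and hi).exists
    refine ⟨n • bc ℝ (P : Pt A B K) + Z, x, y, h, ?_, hn⟩
    rw [← e, map_add, map_zsmul, map_nsmul]
    module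
  · obtain ⟨j, hj⟩ := (AddSubgroup.zmultiples P).nsmul_index_mem ⟨Q, hQ⟩
    refine ⟨2 * (AddSubgroup.zmultiples P).index, j,
      Nat.mul_pos two_pos (Nat.pos_of_ne_zero hP.index_ne_zero), ?_⟩
    have e : j • (P : Pt A B K) = (AddSubgroup.zmultiples P).index • Q := congrArg Subtype.val hj
    rw [mul_smul, ← e, smul_comm]
  · rw [Ultrafilter.coe_map, tendsto_map'_iff]
    refine (tendsto_pi_nhds.1 (tendsto_iff_comap.2 hU.1) r).congr' (hi.mono fun Q hQ => ?_)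
    simp only [Function.comp_apply, ← hm Q hQ]

end Pool.Agent.P.MP_ab3ecb_nt.TK
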