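import Pool.Agent.P.MP_ab3ecb_nt.TK.Iface

/-! Step WP. -/

set_option autoImplicit false
set_option linter.unusedSectionVars false

namespace Pool.Agent.P.MP_ab3ecb_nt.TK

open Filter Topology NumberField IsDedekindDomain
open Pool.Agent.P.MP_ab3ecb_nt.TP (Dn)
open scoped Classical NNReal

theorem p_WP (hWPA : S_WPA) (hWPC : S_WPC) :
    S_WP := by
  intro R _ _ _ A B hD
  obtain ⟨δ, r, e, h0, h1, h2, h3, h4⟩ := hWPA A B hD
  obtain ⟨f, hf⟩ := TP.a_WPB _ δ e h0 h1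
  obtain ⟨h5, W, ⟨t₁, rfl⟩, hW, hW2⟩ := hWPC A B f.range r hD fun Q hQ => by
    by_cases hQ0 : Q = 0
    · rw [hQ0]; exact zero_mem _
    · obtain ⟨t, ht, rfl⟩ := h4 Q hQ hQ0
      exact ⟨t, hf t ht⟩
  obtain ⟨w, hw⟩ := AddSubgroup.cyclic_of_isolated_zero (H := f.ker) h0
    (Set.disjoint_left.2 fun t ht ht' => by
      have h6 : |t| < δ := by rw [abs_of_pos ht'.1]; exact ht'.2
      exact ht'.1.ne' (h2 t h6 ((hf t h6).symm.trans ht)))
  have hk : ∀ t, f t = 0 ↔ ∃ k : ℤ, k • w = t := fun t => by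
    rw [← AddSubgroup.mem_closure_singleton, ← hw, AddMonoidHom.mem_ker]
  have hw0 : w ≠ 0 := by
    rintro rfl
    obtain ⟨k, hk'⟩ := (hk (2 • t₁)).1 (by rw [map_nsmul, hW2])
    have : t₁ = 0 := by simpa using hk'.symm
    exact hW (by rw [this, map_zero])
  refine ⟨f.comp (AddMonoidHom.mulRight w), fun t => ?_, ?_, fun P => ?_⟩
  · refine (hk (t * w)).trans (exists_congr fun k => ?_)
    rw [zsmul_eq_mul, mul_left_inj' hw0, eq_comm]
  · have h6 : Tendsto (fun t : ℝ => t * w) (𝓝 0) (𝓝 0) := by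
      simpa using (continuous_mul_const w).tendsto 0
    have h7 : ToO (𝓝 0) f := fun s => by
      filter_upwards [h3 s, Metric.ball_mem_nhds (0 : ℝ) h0] with t a b
      rwa [hf t (by simpa using b)]
    exact h7.comp h6
  · obtain ⟨t, ht⟩ := h5 P
    exact ⟨t / w, (congrArg f (div_mul_cancel₀ t hw0)).trans ht⟩

end Pool.Agent.P.MP_ab3ecb_nt.TK
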