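import Pool.Agent.P.MP_ab3ecb_nt.TK.TFG
import Pool.Agent.P.MP_ab3ecb_nt.TK.TMUL
import Pool.Agent.P.MP_ab3ecb_nt.TK.TCL
import Pool.Agent.P.MP_ab3ecb_nt.TK.TFAR
import Pool.Agent.P.MP_ab3ecb_nt.TK.TFARE
import Pool.Agent.P.MP_ab3ecb_nt.TK.TEVC
import Pool.Agent.P.MP_ab3ecb_nt.TK.TLA
import Pool.Agent.P.MP_ab3ecb_nt.TK.TLB
import Pool.Agent.P.MP_ab3ecb_nt.TK.TCO
import Pool.Agent.P.MP_ab3ecb_nt.TK.TTS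
import Pool.Agent.P.MP_ab3ecb_nt.TK.TDER
import Pool.Agent.P.MP_ab3ecb_nt.TK.TWPA
import Pool.Agent.P.MP_ab3ecb_nt.TK.TWPC
import Pool.Agent.P.MP_ab3ecb_nt.TK.TWP
import Pool.Agent.P.MP_ab3ecb_nt.TK.TRS
import Pool.Agent.P.MP_ab3ecb_nt.TK.TKA
import Pool.Agent.P.MP_ab3ecb_nt.TK.TULT
import Pool.Agent.P.MP_ab3ecb_nt.TK.TQR
import Pool.Agent.P.MP_ab3ecb_nt.TK.TPROP
import Pool.Agent.P.MP_ab3ecb_nt.TK.TLNK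
import Pool.Agent.P.MP_ab3ecb_nt.TK.TCMP
import Pool.Agent.P.MP_ab3ecb_nt.TK.TFI
import Pool.Agent.P.MP_ab3ecb_nt.TK.TDIV
import Pool.Agent.P.MP_ab3ecb_nt.TK.TSIG
import Pool.Agent.P.MP_ab3ecb_nt.TK.TGOOD
import Pool.Agent.P.MP_ab3ecb_nt.TK.TSQ
import Pool.Agent.P.MP_ab3ecb_nt.TK.TKF
import Pool.Agent.P.MP_ab3ecb_nt.TK.TALG
import Pool.Agent.P.MP_ab3ecb_nt.TK.TKRA
import Pool.Agent.P.MP_ab3ecb_nt.TK.TKRB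
import Pool.Agent.P.MP_ab3ecb_nt.TK.TKR
import Pool.Agent.P.MP_ab3ecb_nt.TK.TOTH
import Pool.Agent.P.MP_ab3ecb_nt.TK.TKEY
import Pool.Agent.P.MP_ab3ecb_nt.TK.TKEYB
import Pool.Agent.P.MP_ab3ecb_nt.TK.TTOP
import Pool.Agent.P.MP_ab3ecb_nt.TK.TRAT

/-! Assembly of the steps. -/

namespace Pool.Agent.P.MP_ab3ecb_nt.TK

theorem a_FG : S_FG := @p_FG
theorem a_MUL : S_MUL := @p_MUL @TK.a_FG
theorem a_CL : S_CL := @p_CL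
theorem a_FAR : S_FAR := @p_FAR
theorem a_FARE : S_FARE := @p_FARE @TK.a_FAR
theorem a_EVC : S_EVC := @p_EVC
theorem a_LA : S_LA := @p_LA
theorem a_LB : S_LB := @p_LB
theorem a_CO : S_CO := @p_CO @TK.a_LA @TK.a_LB
theorem a_TS : S_TS := @p_TS
theorem a_DER : S_DER := @p_DER
theorem a_WPA : S_WPA := @p_WPA @TK.a_LA @TK.a_LB @TK.a_DER
theorem a_WPC : S_WPC := @p_WPC @TK.a_LA
theorem a_WP : S_WP := @p_WP @TK.a_WPA @TK.a_WPC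
theorem a_RS : S_RS := @p_RS @TK.a_LB
theorem a_KA : S_KA := @p_KA @TK.a_LB @TK.a_EVC
theorem a_ULT : S_ULT := @p_ULT
theorem a_QR : S_QR := @p_QR
theorem a_PROP : S_PROP := @p_PROP
theorem a_LNK : S_LNK := @p_LNK
theorem a_CMP : S_CMP := @p_CMP
theorem a_FI : S_FI := @p_FI @TK.a_MUL @TK.a_FARE
theorem a_DIV : S_DIV := @p_DIV @TK.a_MUL @TK.a_FI
theorem a_SIG : S_SIG := @p_SIG @TK.a_MUL @TK.a_CL @TK.a_FARE @TK.a_FI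
theorem a_GOOD : S_GOOD := @p_GOOD @TK.a_MUL @TK.a_FAR
theorem a_SQ : S_SQ := @p_SQ @TK.a_CL @TK.a_EVC @TK.a_CO @TK.a_PROP
theorem a_KF : S_KF := @p_KF @TK.a_MUL @TK.a_SIG @TK.a_GOOD
theorem a_ALG : S_ALG := @p_ALG @TK.a_MUL
theorem a_KRA : S_KRA := @p_KRA @TK.a_RS @TK.a_ALG
theorem a_KRB : S_KRB := @p_KRB @TK.a_LB @TK.a_RS
theorem a_KR : S_KR := @p_KR @TK.a_KRA @TK.a_KRB @TK.a_ALG
theorem a_OTH : S_OTH := @p_OTH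
theorem a_KEY : S_KEY := @p_KEY @TK.a_WP @TK.a_KA @TK.a_KF @TK.a_KR @TK.a_QR @TK.a_ALG @TK.a_OTH
theorem a_KEYB : S_KEYB := @p_KEYB @TK.a_KEY
theorem a_TOP : S_TOP := @p_TOP @TK.a_MUL @TK.a_CO @TK.a_TS @TK.a_PROP @TK.a_LNK @TK.a_FI @TK.a_DIV
  @TK.a_SQ @TK.a_ULT @TK.a_KEYB
theorem a_RAT : S_RAT := @p_RAT @TK.a_SQ @TK.a_LNK

end Pool.Agent.P.MP_ab3ecb_nt.TK
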