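import Mathlib

/-!
Points of the curve `y ^ 2 = x ^ 3 + A x + B`, their coordinates, and the real components on
which a polynomial takes a negative value.
-/

namespace Pool.Agent.P.MP_ab3ecb_nt.TK

open WeierstrassCurve OnePoint NumberField IsDedekindDomain
open scoped Classical

/-- The points over `L` of the curve `y ^ 2 = x ^ 3 + A x + B`, the point at infinity included. -/
abbrev Pt {R : Type} [CommRing R] (A B : R) (L : Type) [Field L] [Algebra R L] : Type :=
  ((⟨0, 0, 0, A, B⟩ : WeierstrassCurve R)⁄L).toAffine.Point

/-- The coordinates of a point. -/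
def co {R : Type} [CommRing R] {A B : R} {L : Type} [Field L] [Algebra R L] :
    Pt A B L → OnePoint L × OnePoint L
  | .zero => (∞, ∞)
  | .some x y _ => (x, y)

variable {K : Type} [Field K] {A B : 𝓞 K}

/-- A point over `K` as a point over the extension `L`. -/
noncomputable def bc (L : Type) [Field L] [Algebra K L] [DecidableEq K] [DecidableEq L] :
    Pt A B K →+ Pt A B L :=
  Affine.Point.baseChange K L

/-- The polynomial `F` is negative at some point of the real component of `Q`, that is, of the
coset of `Q` modulo the doubles of the real points. -/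
def Neg [Algebra K ℝ] (F : MvPolynomial (Fin 2) (𝓞 K)) (Q : Pt A B K) : Prop :=
  ∃ (Z : Pt A B ℝ) (x y : ℝ) (h : _), bc ℝ Q + 2 • Z = .some x y h ∧
    MvPolynomial.aeval ![x, y] F < 0

/-- For every real embedding `σ` of `K` other than the fixed one, the conjugate of `F` is not
negative at the affine real points of the conjugate curve. -/
def Oth [Algebra K ℝ] (A B : 𝓞 K) (F : MvPolynomial (Fin 2) (𝓞 K)) : Prop :=
  ∀ σ : K →+* ℝ, σ ≠ algebraMap K ℝ → ∀ x y : ℝ, y ^ 2 = x ^ 3 + σ A * x + σ B →
    0 ≤ F.eval₂ (σ.comp (algebraMap (𝓞 K) K)) ![x, y]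

/-- The value of `F` at the point `P` is a square, if `P` is affine. -/
def IsSq {L : Type} [Field L] [Algebra (𝓞 K) L] (F : MvPolynomial (Fin 2) (𝓞 K)) (P : Pt A B L) :
    Prop :=
  ∀ x y h, P = .some x y h → IsSquare (MvPolynomial.aeval ![x, y] F)

variable [NumberField K]

/-- The points over the completion at the finite place `r`. -/
abbrev Loc (A B : 𝓞 K) (r : HeightOneSpectrum (𝓞 K)) : Type := Pt A B (r.adicCompletion K)

/-- A point over `K`, seen as a point over the completion at `r`. -/
noncomputable def loc (r : HeightOneSpectrum (𝓞 K)) (Q : Pt A B K) : Loc A B r :=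
  bc (r.adicCompletion K) Q

/-- The family `a` lies in the closure of the diagonal image of the set `T` of points over `K`. -/
def InCl (T : Set (Pt A B K)) {S : Set (HeightOneSpectrum (𝓞 K))} (a : ∀ r : S, Loc A B r.1) :
    Prop :=
  (fun r => co (a r)) ∈ closure ((fun Q (r : S) => co (loc r.1 Q)) '' T)

end Pool.Agent.P.MP_ab3ecb_nt.TK
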