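import Pool.Agent.P.MP_ab3ecb_nt.TK.Base
import Pool.Agent.P.MP_ab3ecb_nt.TP.All

/-! Statements which do not use places of the algebraic numbers. -/

namespace Pool.Agent.P.MP_ab3ecb_nt.TK

open Filter Topology NumberField IsDedekindDomain
open Pool.Agent.P.MP_ab3ecb_nt.TP (Dn)
open scoped Classical NNReal

/-! ### Valuations -/

-- deps:
def S_FG : Prop := ∀ {R : Type} [CommRing R] [Algebra.IsIntegral ℤ R] (A B : R)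
  (L G : Type) [Field L] [Algebra R L] [DecidableEq L]
  [LinearOrderedCommGroupWithZero G] (v : Valuation L G) (P Q : Pt A B L), E1 v P → E1 v Q →
    E1 v (P + Q) ∧ v (Z (P + Q) - Z P - Z Q) ≤ max (v (Z P)) (v (Z Q)) ^ 5

-- deps: FG
def S_MUL : Prop := ∀ {R : Type} [CommRing R] [Algebra.IsIntegral ℤ R] (A B : R)
  (L G : Type) [Field L] [Algebra R L] [DecidableEq L]
  [LinearOrderedCommGroupWithZero G] (v : Valuation L G),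
    (∀ (c : G) (P Q : Pt A B L), Sm v c P → Sm v c Q → Sm v c (P + Q)) ∧
    (∀ (c : G) (P : Pt A B L) (n : ℤ), Sm v c P → Sm v c (n • P)) ∧
    ∀ (P : Pt A B L) (n : ℤ), v n = 1 → E1 v P → v (Z (n • P)) = v (Z P)

-- deps:
def S_CL : Prop := ∀ {R : Type} [CommRing R] [Algebra.IsIntegral ℤ R] (A B : R)
  (L G : Type) [Field L] [Algebra R L] [DecidableEq L]
  [LinearOrderedCommGroupWithZero G] (v : Valuation L G) (M : G) (P Q : Pt A B L), P ≠ 0 →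
    1 ≤ M → v (X P) ≤ M → E1 v Q → v (Z Q) * M ≤ 1 → P + Q ≠ 0 ∧
      v (X (P + Q) - X P) ≤ v (Z Q) * M ^ 2 ∧ v (Y (P + Q) - Y P) ≤ v (Z Q) * M ^ 2

-- deps:
def S_FAR : Prop := ∀ {R : Type} [CommRing R] [Algebra.IsIntegral ℤ R] (A B : R)
  (L G : Type) [Field L] [Algebra R L] [DecidableEq L]
  [LinearOrderedCommGroupWithZero G] (v : Valuation L G) (c M δ : G) (P Q : Pt A B L), P ≠ 0 →
    Q ≠ 0 → δ = v ((4 * A ^ 3 + 27 * B ^ 2 : R) : L) → 1 ≤ M → v (X P) ≤ M → v (X Q) ≤ M →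
    c ^ 2 * M ≤ 1 → v (X P - X Q) * M ^ 3 < δ → v (X P - X Q) * M ^ 2 < c ^ 2 * δ →
    v (X P - X Q) ^ 2 * M < c ^ 2 * v 2 ^ 2 * δ → Sm v c (P - Q) ∨ Sm v c (P + Q)

-- deps: FAR
def S_FARE : Prop := ∀ {R : Type} [CommRing R] [Algebra.IsIntegral ℤ R] (A B : R)
  (L : Type) [Field L] [Algebra R L] [CharZero L] [FaithfulSMul R L] [DecidableEq L]
  (v : Valuation L ℝ≥0) (c M : ℝ≥0), 4 * A ^ 3 + 27 * B ^ 2 ≠ 0 → 0 < c → ∃ ε : ℝ≥0, 0 < ε ∧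
    ∀ P Q : Pt A B L, P ≠ 0 → Q ≠ 0 → v (X P) ≤ M → v (X Q) ≤ M → v (X P - X Q) < ε →
      Sm v c (P - Q) ∨ Sm v c (P + Q)

-- deps:
def S_EVC : Prop := ∀ {R : Type} [CommRing R] [Algebra.IsIntegral ℤ R] (A B : R)
  (F : MvPolynomial (Fin 2) R),
  (∀ (L G : Type) [Field L] [Algebra R L] [LinearOrderedCommGroupWithZero G] (v : Valuation L G)
    (P Q : Pt A B L), v (X P) ≤ 1 → v (X Q) ≤ 1 → v (X P - X Q) < 1 → v (Y P - Y Q) < 1 →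
      v (ev F P - ev F Q) < 1) ∧
  ∀ (L ι : Type) [NormedField L] [Algebra R L] (l : Filter ι) (P : ι → Pt A B L) (Q : Pt A B L), ToA l P Q →
    Tendsto (fun i => ev F (P i)) l (𝓝 (ev F Q))

/-! ### Limits -/

-- deps:
def S_LA : Prop := ∀ {R : Type} [CommRing R] (A B : R)
  (L ι : Type) [NormedField L] [Algebra R L] [DecidableEq L] (l : Filter ι)
  (P : ι → Pt A B L) (Q : Pt A B L), ToA l P Q → ToO l fun i => P i - Q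

-- deps:
def S_LB : Prop := ∀ {R : Type} [CommRing R] (A B : R)
  (L ι : Type) [NontriviallyNormedField L] [Algebra R L] [DecidableEq L]
  (l : Filter ι) (P Q : ι → Pt A B L) (T : Pt A B L), ToA l P T → ToO l Q →
    ToA l (fun i => P i + Q i) T

-- deps: LA LB
def S_CO : Prop := ∀ {R : Type} [CommRing R] (A B : R)
  (L ι : Type) [NontriviallyNormedField L] [Algebra R L] [ProperSpace L]
  [DecidableEq L] (l : Filter ι) (P : ι → Pt A B L) (Q : Pt A B L),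
    (Tendsto (fun i => co (P i)) l (𝓝 (co Q)) → (Q ≠ 0 → ToA l P Q) ∧ ToO l fun i => P i - Q) ∧
    ∀ Q', l.NeBot → (ToO l fun i => P i - Q) → (ToO l fun i => P i - Q') → Q = Q'

-- deps:
def S_TS : Prop := ∀ {R : Type} [CommRing R] [Algebra.IsIntegral ℤ R] (A B : R)
  (L ι : Type) [NormedField L] [Algebra R L] [IsUltrametricDist L] (l : Filter ι)
  (P : ι → Pt A B L), ToO l P ↔
    ∀ c : ℝ≥0, 0 < c → ∀ᶠ i in l, Sm (NormedField.valuation (K := L)) c (P i)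

/-! ### Real points -/

-- deps:
def S_DER : Prop := ∀ {R : Type} [CommRing R] [Algebra R ℝ] (A B : R)
  (c : ℝ → Pt A B ℝ) (Q : Pt A B ℝ) (x : ℝ), 0 < Y (c x) →
  (∀ᶠ t in 𝓝 x, c t ≠ 0 ∧ c t + Q ≠ 0 ∧ X (c t) = t ∧ Y (c t) = √(t ^ 3 + A * t + B)) →
  (Q ≠ 0 → X Q ≠ x) → HasDerivAt (fun t => X (c t + Q)) (Y (c x + Q) / Y (c x)) x

-- deps: LA LB DER
def S_WPA : Prop := ∀ {R : Type} [CommRing R] [Algebra R ℝ] [FaithfulSMul R ℝ] (A B : R),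
  4 * A ^ 3 + 27 * B ^ 2 ≠ 0 → ∃ (δ r : ℝ) (e : ℝ → Pt A B ℝ),
  0 < δ ∧ (∀ s t, |s| < δ → |t| < δ → e (s + t) = e s + e t) ∧
  (∀ t, |t| < δ → e t = 0 → t = 0) ∧ ToO (𝓝 0) e ∧
  ∀ Q : Pt A B ℝ, r ≤ ‖X Q‖ → Q ≠ 0 → ∃ t, |t| < δ ∧ e t = Q

-- deps: LA
def S_WPC : Prop := ∀ {R : Type} [CommRing R] [Algebra R ℝ] [FaithfulSMul R ℝ] (A B : R)
  (H : AddSubgroup (Pt A B ℝ)) (r : ℝ), 4 * A ^ 3 + 27 * B ^ 2 ≠ 0 →
  (∀ Q : Pt A B ℝ, r ≤ ‖X Q‖ → Q ∈ H) → (∀ P : Pt A B ℝ, 2 • P ∈ H) ∧ ∃ W ∈ H, W ≠ 0 ∧ 2 • W = 0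

-- deps: WPA WPC
def S_WP : Prop := ∀ {R : Type} [CommRing R] [Algebra R ℝ] [FaithfulSMul R ℝ] (A B : R),
  4 * A ^ 3 + 27 * B ^ 2 ≠ 0 → ∃ f : ℝ →+ Pt A B ℝ, Unif f

-- deps: LB
def S_RS : Prop := ∀ {R : Type} [CommRing R] [Algebra R ℝ] (A B : R)
  (ι : Type) (l : Filter ι) (Q : ι → Pt A B ℝ), ToO l Q →
  (∀ (T : Pt A B ℝ) (x : ℝ), (T ≠ 0 → X T ≠ x) → ∀ᶠ i in l, (Pos x (T + Q i) ↔ Pos x T)) ∧
  ∀ V : Pt A B ℝ, 2 • V ≠ 0 → ∀ᶠ i in l, Q i ≠ 0 → V + Q i ≠ 0 ∧ V - Q i ≠ 0 ∧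
    (X (V + Q i) - X V) * (X (V - Q i) - X V) < 0

-- deps: LB EVC
def S_KA : Prop := ∀ {K : Type} [Field K] [NumberField K] [Algebra K ℝ] (A B : 𝓞 K)
  (F : MvPolynomial (Fin 2) (𝓞 K)) (f : ℝ →+ Pt A B ℝ) (R : Pt A B K)
  (x : ℝ) (l : Ultrafilter ℤ) (s t : ℤ) (r j : ℕ), Unif f → Neg F R → r.Prime →
  (¬ ∀ᶠ m in l, (r : ℤ) ^ j ∣ t * m - s) → ∃ (e : ℕ) (k m₀ : ℤ),
    (∀ᶠ m in l, (r : ℤ) ^ e ∣ m - m₀) ∧
    bc ℝ R + f (x + (t * m₀ - s) * (k / r ^ e)) ≠ 0 ∧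
    ev F (bc ℝ R + f (x + (t * m₀ - s) * (k / r ^ e))) < 0

/-! ### The ultrafilter -/

-- deps:
def S_ULT : Prop := ∀ {K : Type} [Field K] [NumberField K] [Algebra K ℝ] (A B : 𝓞 K)
  (Γ : AddSubgroup (Pt A B K)) (F : MvPolynomial (Fin 2) (𝓞 K))
  (S : Set (HeightOneSpectrum (𝓞 K))) (a : ∀ r : S, Pt A B (r.1.adicCompletion K)),
  (∃ P : Γ, (AddSubgroup.zmultiples P).FiniteIndex) →
  (fun r => co (a r)) ∈ closure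
    ((fun Q (r : S) => co (bc (r.1.adicCompletion K) Q)) '' {Q | Q ∈ Γ ∧ Neg F Q}) →
  ∃ P ∈ Γ, ∃ R ∈ Γ, ∃ l : Ultrafilter ℤ, Neg F R ∧
    (∀ Q ∈ Γ, ∃ (k : ℕ) (j : ℤ), 0 < k ∧ k • Q = j • 2 • P) ∧
    ∀ r : S, Tendsto (fun m : ℤ => co (bc (r.1.adicCompletion K) (R + m • 2 • P))) l (𝓝 (co (a r)))

end Pool.Agent.P.MP_ab3ecb_nt.TK
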