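import Pool.Agent.P.MP_ab3ecb_nt.TK.Iface

/-! Statements on points over the algebraic numbers. -/

set_option linter.unusedSectionVars false

namespace Pool.Agent.P.MP_ab3ecb_nt.TK

open Filter Topology NumberField IsDedekindDomain
open Pool.Agent.P.MP_ab3ecb_nt.TP (Dn)
open Pool.Agent.P.MP_8b7eba_nt.R2 hiding Sm
open scoped Classical NNReal

/-- The embedding of `K` in the algebraic numbers is compatible with its real embedding. -/
class Cmp (K : Type) [Field K] [Algebra K ℝ] [Algebra K Om] : Prop where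
  eq : ∀ k : K, io (algebraMap K Om k) = (algebraMap K ℝ k : ℝ)

/-- The completion at a finite place. -/
abbrev Kv {K : Type} [Field K] [NumberField K] (v : HeightOneSpectrum (𝓞 K)) : Type :=
  v.adicCompletion K

noncomputable instance {K : Type} [Field K] [NumberField K] (v : HeightOneSpectrum (𝓞 K)) :
    NontriviallyNormedField (Kv v) := Valued.toNontriviallyNormedField (Kv v) (WithZero (Multiplicative ℤ))

/-- The absolute Galois group of `K`. -/
def GK (K : Type) [Field K] [Algebra K Om] : Subgroup GQ where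
  carrier := {g | ∀ k : K, g (algebraMap K Om k) = algebraMap K Om k}
  one_mem' := fun _ => rfl
  mul_mem' := fun {a b} ha hb k => by rw [AlgEquiv.mul_apply, hb, ha]
  inv_mem' := fun {a} ha k => (AlgEquiv.symm_apply_eq a).2 (ha k).symm

variable {K : Type} [Field K] [Algebra K Om] {A B : 𝓞 K}

lemma fix_K {U : Subgroup GQ} (h : U ≤ GK K) (k : K) : Fix U (algebraMap K Om k) :=
  fun _ hg => h hg k

lemma open_GK [NumberField K] : IsOpen (GK K : Set GQ) := by
  obtain ⟨θ, hθ⟩ := Field.exists_primitive_element ℚ K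
  refine open_of_le (isOpen_stab (algebraMap K Om θ)) fun g hg k => ?_
  have hk : k ∈ IntermediateField.adjoin ℚ {θ} := hθ ▸ IntermediateField.mem_top
  induction hk using IntermediateField.adjoin_induction with
  | mem x hx => rw [hx]; exact hg
  | algebraMap q => simp
  | add x y _ _ hx hy => rw [map_add, map_add, hx, hy]
  | inv x _ hx => rw [map_inv₀, map_inv₀, hx]
  | mul x y _ _ hx hy => rw [map_mul, map_mul, hx, hy]

/-- An element of the Galois group of `K` as a homomorphism of algebras. -/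
noncomputable def hom (g : GK K) : Om →ₐ[𝓞 K] Om :=
  ⟨(g.1 : Om →+* Om), fun a => g.2 a⟩

/-- The Galois action on points. -/
noncomputable abbrev act (g : GK K) : Pt A B Om →+ Pt A B Om := pm (hom g)

/-- Rational points as algebraic points. -/
noncomputable abbrev rt : Pt A B K →+ Pt A B Om := bc Om

@[simp] lemma hom_apply (g : GK K) (x : Om) : hom g x = g.1 x := rfl

/-- The point is defined over the fixed field of `U`. -/
def FixP (U : Subgroup GQ) (P : Pt A B Om) : Prop :=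
  U ≤ GK K ∧ ∀ g : GK K, g.1 ∈ U → act g P = P

lemma act_mul (g h : GK K) (P : Pt A B Om) : act (g * h) P = act g (act h P) :=
  (pm_pm (hom h) (hom g) P).symm

lemma act_one (P : Pt A B Om) : act 1 P = P := pm_id P

lemma act_rt (g : GK K) (P : Pt A B K) : act g (rt P) = rt P := pm_bc (hom g) g.2 P

section

variable {U : Subgroup GQ} {P Q : Pt A B Om}

lemma FixP.x (h : FixP U P) : Fix U (X P) := fun g hg => by
  simpa using congrArg X (h.2 ⟨g, h.1 hg⟩ hg)

lemma FixP.y (h : FixP U P) : Fix U (Y P) := fun g hg => by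
  simpa using congrArg Y (h.2 ⟨g, h.1 hg⟩ hg)

lemma FixP.ev (h : FixP U P) (F : MvPolynomial (Fin 2) (𝓞 K)) : Fix U (ev F P) := fun g hg =>
  (ev_pm F (hom ⟨g, h.1 hg⟩) P).symm.trans (congrArg _ (h.2 ⟨g, h.1 hg⟩ hg))

lemma FixP.add (h : FixP U P) (h' : FixP U Q) : FixP U (P + Q) := ⟨h.1, fun g hg => by
  rw [map_add, h.2 g hg, h'.2 g hg]⟩

lemma FixP.sub (h : FixP U P) (h' : FixP U Q) : FixP U (P - Q) := ⟨h.1, fun g hg => by
  rw [map_sub, h.2 g hg, h'.2 g hg]⟩

lemma FixP.nsmul (h : FixP U P) (n : ℕ) : FixP U (n • P) := ⟨h.1, fun g hg => by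
  rw [map_nsmul, h.2 g hg]⟩

lemma FixP.zsmul (h : FixP U P) (n : ℤ) : FixP U (n • P) := ⟨h.1, fun g hg => by
  rw [map_zsmul, h.2 g hg]⟩

lemma fixP_rt (h : U ≤ GK K) (R : Pt A B K) : FixP U (rt R) := ⟨h, fun g _ => act_rt g R⟩

lemma FixP.bt {V W : Pt A B Om} (h : FixP U P) (hV : FixP U V) (hW : FixP U W) (d : ℕ) :
    Fix U (bt P V W d) := ((h.nsmul d).sub hV).x.sub hW.x

end

/-- The group which fixes two points. -/
def stab (P Q : Pt A B Om) : Subgroup GQ where
  carrier := {g | ∃ h : g ∈ GK K, act ⟨g, h⟩ P = P ∧ act ⟨g, h⟩ Q = Q}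
  one_mem' := ⟨one_mem _, act_one P, act_one Q⟩
  mul_mem' := fun {a b} ⟨ha, h1, h2⟩ ⟨hb, h3, h4⟩ => ⟨mul_mem ha hb,
    (act_mul ⟨a, ha⟩ ⟨b, hb⟩ P).trans (by rw [h3, h1]),
    (act_mul ⟨a, ha⟩ ⟨b, hb⟩ Q).trans (by rw [h4, h2])⟩
  inv_mem' := fun {a} ⟨ha, h1, h2⟩ => ⟨inv_mem ha,
    show act (⟨a, ha⟩ : GK K)⁻¹ P = P by
      rw [← h1, ← act_mul, inv_mul_cancel, act_one, h1],
    show act (⟨a, ha⟩ : GK K)⁻¹ Q = Q by
      rw [← h2, ← act_mul, inv_mul_cancel, act_one, h2]⟩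

lemma mem_stab {P Q : Pt A B Om} {g : GK K} : g.1 ∈ stab P Q ↔ act g P = P ∧ act g Q = Q :=
  ⟨fun ⟨_, h⟩ => h, fun h => ⟨g.2, h⟩⟩

lemma stab_le (P Q : Pt A B Om) : stab P Q ≤ GK K := fun _ h => h.1

lemma fixP_stab (P Q : Pt A B Om) : FixP (stab P Q) P ∧ FixP (stab P Q) Q :=
  ⟨⟨stab_le P Q, fun _ h => (mem_stab.1 h).1⟩, stab_le P Q, fun _ h => (mem_stab.1 h).2⟩

/-- The place `w` of the algebraic numbers lies over the place `v` of `K`. -/
def Over [NumberField K] (w : Pl) (v : HeightOneSpectrum (𝓞 K)) : Prop :=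
  ∀ x y : K, w.v (algebraMap K Om x) ≤ w.v (algebraMap K Om y) ↔
    ‖algebraMap K (Kv v) x‖ ≤ ‖algebraMap K (Kv v) y‖

section

variable [NumberField K] {w : Pl} {v : HeightOneSpectrum (𝓞 K)}

lemma Over.lt (h : Over w v) (x y : K) : w.v (algebraMap K Om x) < w.v (algebraMap K Om y) ↔
    ‖algebraMap K (Kv v) x‖ < ‖algebraMap K (Kv v) y‖ := lt_iff_lt_of_le_iff_le (h y x)

lemma Over.le_one (h : Over w v) (x : K) : w.v (algebraMap K Om x) ≤ 1 ↔
    ‖algebraMap K (Kv v) x‖ ≤ 1 := by simpa using h x 1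

lemma Over.lt_one (h : Over w v) (x : K) : w.v (algebraMap K Om x) < 1 ↔
    ‖algebraMap K (Kv v) x‖ < 1 := by simpa using h.lt x 1

lemma Over.sm (h : Over w v) (z : K) (P : Pt A B K) : Sm w.v (w.v (algebraMap K Om z)) (rt P) ↔
    Sm (NormedField.valuation (K := Kv v)) ‖algebraMap K (Kv v) z‖₊ (bc (Kv v) P) := by
  have h1 := h.lt 1 (X P)
  rw [map_one, map_one, map_one, norm_one] at h1
  simp only [Sm, E1, Z, X_bc, Y_bc, bc_eq_zero, ← map_div₀, h1, h _ z,
    NormedField.valuation_apply, ← NNReal.coe_lt_coe, ← NNReal.coe_le_coe, coe_nnnorm,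
    NNReal.coe_one]

/-- Elements which are small on both sides. -/
lemma Over.small (h : Over w v) {c c' : ℝ≥0} (hc : 0 < c) (hc' : 0 < c') : ∃ z : K, z ≠ 0 ∧
    w.v (algebraMap K Om z) ≤ c ∧ ‖algebraMap K (Kv v) z‖₊ ≤ c' := by
  have h1 : w.v (algebraMap K Om w.p) < 1 := by rw [map_natCast]; exact w.v_p_lt
  have h2 : ‖algebraMap K (Kv v) w.p‖₊ < 1 := (h.lt_one _).1 h1
  obtain ⟨n, h3, h4⟩ := (((NNReal.tendsto_pow_atTop_nhds_zero_of_lt_one h1).eventually_le_const
    hc).and ((NNReal.tendsto_pow_atTop_nhds_zero_of_lt_one h2).eventually_le_const hc')).exists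
  exact ⟨w.p ^ n, pow_ne_zero n (Nat.cast_ne_zero.2 w.prime.ne_zero), by rwa [map_pow, map_pow],
    by rwa [map_pow, nnnorm_pow]⟩

end

variable [Algebra K ℝ] [Cmp K]

variable (K) in
/-- The complex embedding as a homomorphism of algebras. -/
noncomputable def ioK : Om →ₐ[𝓞 K] ℂ := ⟨io, fun a => Cmp.eq (a : K)⟩

variable (K) in
/-- The inclusion of the reals as a homomorphism of algebras. -/
noncomputable def reK : ℝ →ₐ[𝓞 K] ℂ := ⟨Complex.ofRealHom, fun _ => rfl⟩

@[simp] lemma ioK_apply (x : Om) : ioK K x = io x := rfl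

omit [Algebra K Om] [Cmp K] in
@[simp] lemma reK_apply (x : ℝ) : reK K x = x := rfl

variable (K) in
/-- Complex conjugation as an element of the Galois group of `K`. -/
noncomputable def tauK : GK K :=
  ⟨tau, fun k => io.injective (by rw [a_TAU.1, Cmp.eq, Complex.conj_ofReal])⟩

/-- The algebraic point `P` is the real point `R`, in the embedding given by `g`. -/
def IsR (g : GK K) (P : Pt A B Om) (R : Pt A B ℝ) : Prop :=
  pm (ioK K) (act g P) = pm (reK K) R

section

variable {g : GK K} {P Q : Pt A B Om} {R T : Pt A B ℝ}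

lemma IsR.add (h : IsR g P R) (h' : IsR g Q T) : IsR g (P + Q) (R + T) := by
  rw [IsR, map_add, map_add, map_add, h, h']

lemma IsR.sub (h : IsR g P R) (h' : IsR g Q T) : IsR g (P - Q) (R - T) := by
  rw [IsR, map_sub, map_sub, map_sub, h, h']

lemma IsR.nsmul (h : IsR g P R) (n : ℕ) : IsR g (n • P) (n • R) := by
  rw [IsR, map_nsmul, map_nsmul, map_nsmul, h]

lemma IsR.zsmul (h : IsR g P R) (n : ℤ) : IsR g (n • P) (n • R) := by
  rw [IsR, map_zsmul, map_zsmul, map_zsmul, h]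

lemma isR_rt (g : GK K) (Q : Pt A B K) : IsR g (rt Q) (bc ℝ Q) := by
  rw [IsR, act_rt, pm_bc _ Cmp.eq, pm_bc _ fun _ => rfl]

lemma IsR.left {g' : GK K} (h : IsR g P R) (h' : IsR g' Q R) : act g P = act g' Q :=
  pm_injective _ (h.trans h'.symm)

lemma IsR.right (h : IsR g P R) (h' : IsR g P T) : R = T := pm_injective _ (h.symm.trans h')

lemma IsR.zero_iff (h : IsR g P R) : P = 0 ↔ R = 0 := by
  rw [← pm_eq_zero (hom g), ← pm_eq_zero (ioK K), h, pm_eq_zero]

lemma IsR.x (h : IsR g P R) : io (g.1 (X P)) = X R := by simpa using congrArg X h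

lemma IsR.ev (h : IsR g P R) (F : MvPolynomial (Fin 2) (𝓞 K)) :
    io (g.1 (ev F P)) = (ev F R : ℝ) := by
  have h1 := congrArg (TK.ev F) h
  rwa [ev_pm, ev_pm, ev_pm] at h1

lemma IsR.bt {V W : Pt A B Om} {V' W' : Pt A B ℝ} (h : IsR g P R) (hV : IsR g V V')
    (hW : IsR g W W') (d : ℕ) : io (g.1 (bt P V W d)) = (bt R V' W' d : ℝ) := by
  rw [TK.bt, TK.bt, map_sub, map_sub, ((h.nsmul d).sub hV).x, hW.x, Complex.ofReal_sub]

end

end Pool.Agent.P.MP_ab3ecb_nt.TK
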