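import Pool.Agent.P.MP_ab3ecb_nt.TK.IfaceB

/-! Statements on places. -/

namespace Pool.Agent.P.MP_ab3ecb_nt.TK

open Filter Topology NumberField IsDedekindDomain
open Pool.Agent.P.MP_ab3ecb_nt.TP (Dn)
open Pool.Agent.P.MP_8b7eba_nt.R2 hiding Sm
open scoped Classical NNReal

/-! ### Reciprocity -/

-- deps:
def S_QR : Prop := ∀ (U : Subgroup GQ) (a b : Om), IsOpen (U : Set GQ) → Fix U a → Fix U b →
  a ≠ 0 → b ≠ 0 → (∀ w : Pl, Nm (w.D ⊓ U) a b) → tau ∈ U → (io a).re < 0 → (io b).re < 0 →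
    ∃ g : GQ, g ∉ U ∧ g⁻¹ * tau * g ∈ U ∧ (io (g a)).re < 0 ∧ (io (g b)).re < 0

/-! ### Finite places -/

-- deps:
def S_PROP : Prop := ∀ {K : Type} [Field K] [NumberField K] (v : HeightOneSpectrum (𝓞 K)),
  ProperSpace (Kv v)

-- deps:
def S_LNK : Prop := ∀ (K : Type) [Field K] [NumberField K] [Algebra K Om],
  (∀ w : Pl, ∃ v : HeightOneSpectrum (𝓞 K), Over w v) ∧
  (∀ v : HeightOneSpectrum (𝓞 K), ∃ w : Pl, Over w v) ∧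
  ∀ (w : Pl) (v : HeightOneSpectrum (𝓞 K)), Over w v →
    v.asIdeal.under ℤ = Ideal.span {(w.p : ℤ)}

-- deps:
def S_CMP : Prop := ∀ (K : Type) [Field K] [NumberField K] [Algebra K ℝ],
  ∃ _ : Algebra K Om, Cmp K

-- deps: MUL FARE
def S_FI : Prop := ∀ {K : Type} [Field K] [NumberField K] [Algebra K Om] (A B : 𝓞 K)
  (w : Pl) (U : Subgroup GQ) (P : Pt A B Om) (c : ℝ≥0),
  4 * A ^ 3 + 27 * B ^ 2 ≠ 0 → IsOpen (U : Set GQ) → FixP U P → 0 < c →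
    ∃ N : ℕ, 0 < N ∧ Sm w.v c (N • P)

-- deps: MUL FI
def S_DIV : Prop := ∀ {K : Type} [Field K] [NumberField K] [Algebra K Om] (A B : 𝓞 K)
  (w : Pl) (P : Pt A B K) (j : ℕ), 4 * A ^ 3 + 27 * B ^ 2 ≠ 0 →
  NT P → ∃ c : ℝ≥0, 0 < c ∧ ∀ n : ℤ, Sm w.v c (rt (n • P)) → (w.p : ℤ) ^ j ∣ n

-- deps: MUL CL FARE FI
def S_SIG : Prop := ∀ {K : Type} [Field K] [NumberField K] [Algebra K Om] (A B : 𝓞 K)
  (w : Pl) (U : Subgroup GQ) (P V W : Pt A B Om) (p q k : ℕ),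
  4 * A ^ 3 + 27 * B ^ 2 ≠ 0 → IsOpen (U : Set GQ) → FixP U P → FixP U V → FixP U W → p.Prime →
  q.Prime → p ^ k • V = 0 → p ^ k • W = 0 → V ≠ 0 → W ≠ 0 → V + W ≠ 0 → V - W ≠ 0 →
    ∃ n₀, 0 < n₀ ∧ ∀ n d d', 0 < n → n₀ ∣ n → Dn p q n d → Dn p q n d' →
      Sq (w.D ⊓ U) (bt P V W d * bt P V W d')

-- deps: MUL FAR
def S_GOOD : Prop := ∀ {K : Type} [Field K] [NumberField K] [Algebra K Om] (A B : 𝓞 K)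
  (w : Pl) (P V W : Pt A B Om) (N d : ℕ), w.p ≠ 2 →
  w.v ((4 * A ^ 3 + 27 * B ^ 2 : 𝓞 K) : Om) = 1 → W ≠ 0 → w.v (X W) ≤ 1 → N • V = 0 → N • W = 0 →
  ¬ E1 w.v ((N * d) • P) → w.v (bt P V W d) = 1

-- deps: CL EVC CO PROP
def S_SQ : Prop := ∀ {K : Type} [Field K] [NumberField K] [Algebra K Om] (A B : 𝓞 K)
  (F : MvPolynomial (Fin 2) (𝓞 K))
  (r : HeightOneSpectrum (𝓞 K)) (w : Pl)
  (U : Subgroup GQ) (R : Pt A B Om) (l : Filter ℤ) (γ : ℤ → Pt A B K) (a : Pt A B (Kv r)),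
  Over w r → w.p ≠ 2 → FixP U R → R ≠ 0 → w.v (X R) ≤ 1 → w.v (ev F R) = 1 → l.NeBot →
  (∀ᶠ m in l, E1 w.v (rt (γ m) - R)) →
  Tendsto (fun m => co (bc (Kv r) (γ m))) l (𝓝 (co a)) →
  (a ≠ 0 → IsSquare (ev F a)) → Sq (w.D ⊓ U) (ev F R)

/-- The data of the reciprocity argument at the finite places. -/
structure Ctx {K : Type} [Field K] [Algebra K Om] {A B : 𝓞 K} (F : MvPolynomial (Fin 2) (𝓞 K))
    (P R : Pt A B K) (l : Ultrafilter ℤ) (s t : ℤ) (p q : ℕ) : Prop where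
  hD : 4 * A ^ 3 + 27 * B ^ 2 ≠ 0
  sq : ∃ B₀ : ℕ, ∀ w : Pl, B₀ < w.p → ∀ (U : Subgroup GQ) (R' : Pt A B Om), FixP U R' → R' ≠ 0 →
    w.v (X R') ≤ 1 → w.v (ev F R') = 1 → (∀ᶠ m : ℤ in l, E1 w.v (rt (R + m • P) - R')) →
      Sq (w.D ⊓ U) (ev F R')
  hp : p.Prime
  hq : q.Prime
  ne : p ≠ q
  dp : ∀ j : ℕ, ∀ᶠ m in l, (p : ℤ) ^ j ∣ t * m - s
  dq : ∀ j : ℕ, ∀ᶠ m in l, (q : ℤ) ^ j ∣ t * m - s

-- deps: MUL SIG GOOD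
def S_KF : Prop := ∀ {K : Type} [Field K] [NumberField K] [Algebra K Om] (A B : 𝓞 K)
  (F : MvPolynomial (Fin 2) (𝓞 K)) (P R : Pt A B K) (l : Ultrafilter ℤ) (s t : ℤ) (p q : ℕ),
  Ctx F P R l s t p q → ∀ (U : Subgroup GQ) (P' V W R' : Pt A B Om) (k : ℕ),
  IsOpen (U : Set GQ) → FixP U P' → FixP U V → FixP U W → FixP U R' → p ^ k • V = 0 →
  p ^ k • W = 0 → V ≠ 0 → W ≠ 0 → V + W ≠ 0 → V - W ≠ 0 → R' ≠ 0 → ev F R' ≠ 0 →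
  (∀ᶠ m in l, rt (R + m • P) = R' + (t * m - s) • P') →
    ∃ n₀, 0 < n₀ ∧ ∀ n d d', 0 < n → n₀ ∣ n → Dn p q n d → Dn p q n d' → ∀ w : Pl,
      Nm (w.D ⊓ U) (ev F R') (bt P' V W d * bt P' V W d')

/-! ### Real places -/

-- deps: MUL
def S_ALG : Prop := ∀ {K : Type} [Field K] [NumberField K] [Algebra K Om] [Algebra K ℝ] [Cmp K]
  (A B : 𝓞 K), 4 * A ^ 3 + 27 * B ^ 2 ≠ 0 →
  (∀ (R : Pt A B ℝ) (n : ℤ) (Q : Pt A B K), n ≠ 0 → n • R = bc ℝ Q →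
    ∃ P : Pt A B Om, IsR 1 P R) ∧
  (∀ (g : GK K) (P : Pt A B Om), act (g⁻¹ * tauK K * g) P = P ↔ ∃ R, IsR g P R) ∧
  ∀ P Q : Pt A B Om, IsOpen (stab P Q : Set GQ)

-- deps: RS ALG
def S_KRA : Prop := ∀ {K : Type} [Field K] [NumberField K] [Algebra K Om] [Algebra K ℝ] [Cmp K]
  (A B : 𝓞 K) (f : ℝ →+ Pt A B ℝ) (P V : Pt A B Om) (P₀ : Pt A B K)
  (u : ℝ) (p M : ℕ) (a b : ℤ) (g : GK K), 4 * A ^ 3 + 27 * B ^ 2 ≠ 0 → Unif f → Irrational u →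
  p.Prime → M.Coprime p → M • P = rt P₀ → a + b = 1 → a - b = p → IsR 1 P (f u) →
  IsR 1 V (f (1 / p ^ 2)) → g.1 ∉ stab P V → g.1⁻¹ * tau * g.1 ∈ stab P V →
    ∀ᶠ x in 𝓝 (1 / p ^ 2 : ℝ) ×ˢ 𝓝 (1 / p ^ 2 : ℝ), ∀ (d d' : ℕ) (k k' : ℤ), 0 < d → 0 < d' →
      (M : ℤ) ∣ d - 1 → (M : ℤ) ∣ d' - 1 → d * u + k = x.1 → d' * u + k' = x.2 →
      0 < (io (g.1 (bt P (a • V) (b • V) d * bt P (a • V) (b • V) d'))).re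

-- deps: LB RS
def S_KRB : Prop := ∀ {K : Type} [Field K] [NumberField K] [Algebra K Om] [Algebra K ℝ] [Cmp K]
  (A B : 𝓞 K) (f : ℝ →+ Pt A B ℝ) (P V : Pt A B Om) (u : ℝ) (p : ℕ) (a b : ℤ),
  Unif f → p.Prime → a + b = 1 → a - b = p → IsR 1 P (f u) → IsR 1 V (f (1 / p ^ 2)) →
    ∀ᶠ e in 𝓝[≠] (0 : ℝ), ∀ᶠ x in 𝓝 (1 / p ^ 2 + e : ℝ) ×ˢ 𝓝 (1 / p ^ 2 - e : ℝ),
      ∀ (d d' : ℕ) (k k' : ℤ), d * u + k = x.1 → d' * u + k' = x.2 →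
        (io (bt P (a • V) (b • V) d * bt P (a • V) (b • V) d')).re < 0

-- deps: KRA KRB ALG
def S_KR : Prop := ∀ {K : Type} [Field K] [NumberField K] [Algebra K Om] [Algebra K ℝ] [Cmp K]
  (A B : 𝓞 K) (f : ℝ →+ Pt A B ℝ) (P V : Pt A B Om) (P₀ : Pt A B K)
  (u : ℝ) (p q M n₀ : ℕ) (a b : ℤ), 4 * A ^ 3 + 27 * B ^ 2 ≠ 0 → Unif f → Irrational u →
  p.Prime → q.Prime → p ≠ q → 0 < M → M.Coprime (p * q) → M • P = rt P₀ → a + b = 1 → a - b = p →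
  IsR 1 P (f u) → IsR 1 V (f (1 / p ^ 2)) → 0 < n₀ →
    ∃ n d d', 0 < n ∧ n₀ ∣ n ∧ Dn p q n d ∧ Dn p q n d' ∧
      (io (bt P (a • V) (b • V) d * bt P (a • V) (b • V) d')).re < 0 ∧
      ∀ g ∈ GK K, g ∉ stab P V → g⁻¹ * tau * g ∈ stab P V →
        0 < (io (g (bt P (a • V) (b • V) d * bt P (a • V) (b • V) d'))).re

-- deps:
def S_OTH : Prop := ∀ {K : Type} [Field K] [NumberField K] [Algebra K Om] [Algebra K ℝ] [Cmp K]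
  (A B : 𝓞 K) (F : MvPolynomial (Fin 2) (𝓞 K)) (U : Subgroup GQ) (R : Pt A B Om) (g : GQ),
  Oth A B F → FixP U R → R ≠ 0 → g ∉ GK K → g⁻¹ * tau * g ∈ U → 0 ≤ (io (g (ev F R))).re

/-! ### Assembly -/

-- deps: WP KA KF KR QR ALG OTH
def S_KEY : Prop := ∀ {K : Type} [Field K] [NumberField K] [Algebra K Om] [Algebra K ℝ] [Cmp K]
  (A B : 𝓞 K) (F : MvPolynomial (Fin 2) (𝓞 K))
  (P R : Pt A B K) (l : Ultrafilter ℤ) (s : ℤ) (t p q : ℕ),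
  Ctx F (2 • P) R l s t p q → NT P → Neg F R → Oth A B F →
    p ≠ 2 → 0 < t → t.Coprime (p * q) →
    ∀ r j : ℕ, r.Prime → ∀ᶠ m in l, (r : ℤ) ^ j ∣ t * m - s

-- deps: KEY
def S_KEYB : Prop := ∀ {K : Type} [Field K] [NumberField K] [Algebra K Om] [Algebra K ℝ] [Cmp K]
  (A B : 𝓞 K) (F : MvPolynomial (Fin 2) (𝓞 K))
  (P R : Pt A B K) (l : Ultrafilter ℤ) (s : ℤ) (t p q : ℕ),
  Ctx F (2 • P) R l s t p q → NT P → Neg F R → Oth A B F →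
    0 < t →
    ∃ m₀ : ℤ, ∀ N : ℕ, 0 < N → ∀ᶠ m in l, (N : ℤ) ∣ m - m₀

-- deps: MUL CO TS PROP LNK FI DIV SQ ULT KEYB
def S_TOP : Prop := ∀ {K : Type} [Field K] [NumberField K] [Algebra K Om] [Algebra K ℝ] [Cmp K]
  (A B : 𝓞 K)
  (Γ : AddSubgroup (Pt A B K)) (F : MvPolynomial (Fin 2) (𝓞 K))
  (S : Set (HeightOneSpectrum (𝓞 K))) (a : ∀ r : S, Pt A B (Kv r.1)) (p q : S) (n : ℕ) (Q : Pt A B K),
  4 * A ^ 3 + 27 * B ^ 2 ≠ 0 → (∃ P : Γ, (AddSubgroup.zmultiples P).FiniteIndex) → Sᶜ.Finite →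
  (fun r => co (a r)) ∈ closure
    ((fun Q (r : S) => co (bc (Kv r.1) Q)) '' {Q | Q ∈ Γ ∧ Neg F Q}) →
  (∀ r, a r ≠ 0 → IsSquare (ev F (a r))) → Oth A B F →
  p.1.asIdeal.under ℤ ≠ q.1.asIdeal.under ℤ → n ≠ 0 → Q ∈ Γ →
  n • a p = bc _ Q → n • a q = bc _ Q →
    ∃ R ∈ Γ, ∀ r, a r = bc _ R

-- deps: SQ LNK
def S_RAT : Prop := ∀ {K : Type} [Field K] [NumberField K] [Algebra K Om] (A B : 𝓞 K)
  (F : MvPolynomial (Fin 2) (𝓞 K)) (S : Set (HeightOneSpectrum (𝓞 K))) (R : Pt A B K),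
  Sᶜ.Finite → R ≠ 0 → (∀ r : S, IsSquare (ev F (bc (Kv r.1) R))) → IsSquare (ev F R)

end Pool.Agent.P.MP_ab3ecb_nt.TK
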