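import Pool.Agent.P.MP_ab3ecb_nt.TK.IfaceC
import Pool.Agent.P.MP_8b7eba_nt.R2.TPL

/-! Step LNK. -/

set_option autoImplicit false
set_option linter.unusedSectionVars false

namespace Pool.Agent.P.MP_ab3ecb_nt.TK

open Filter Topology NumberField IsDedekindDomain
open Pool.Agent.P.MP_ab3ecb_nt.TP (Dn)
open Pool.Agent.P.MP_8b7eba_nt.R2 hiding Sm
open scoped Classical NNReal

namespace LNKx

variable {K : Type} [Field K] [NumberField K] [Algebra K Om]

theorem nrm (v : HeightOneSpectrum (𝓞 K)) (x y : K) :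
    ‖algebraMap K (Kv v) x‖ ≤ ‖algebraMap K (Kv v) y‖ ↔ v.valuation K x ≤ v.valuation K y := by
  rw [← v.valuedAdicCompletion_eq_valuation' x, ← v.valuedAdicCompletion_eq_valuation' y]
  exact Valued.toNormedField.norm_le_iff

variable (K) in
/-- The map on algebraic integers. -/
noncomputable def j : 𝓞 K →+* TPL.Zb :=
  ((algebraMap K Om).comp (algebraMap (𝓞 K) K)).codRestrict (integralClosure ℤ Om) fun x =>
    (RingOfIntegers.isIntegral_coe x).map (algebraMap K Om).toIntAlgHom

theorem key {w : Pl} {v : HeightOneSpectrum (𝓞 K)} (h : v.asIdeal = (TPL.PP w).comap (j K)) :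
    Over w v := by
  have a1 : ∀ a : 𝓞 K, w.v (algebraMap K Om (algebraMap _ K a)) ≤ 1 := fun a =>
    TPL.le_one w _ (j K a).2
  have a2 : ∀ a : 𝓞 K, w.v (algebraMap K Om (algebraMap _ K a)) < 1 ↔
      v.valuation K (algebraMap _ K a) < 1 := fun a => by
    rw [show v.valuation K (algebraMap _ K a) < 1 ↔ _ from v.valuation_lt_one_iff_mem a, h]
    rfl
  have a3 : ∀ a : 𝓞 K, v.valuation K (algebraMap _ K a) ≤ 1 := fun a => v.valuation_le_one a
  have e : (w.v.comap (algebraMap K Om)).IsEquiv (v.valuation K) := by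
    refine Valuation.isEquiv_of_val_le_one fun x => ?_
    obtain ⟨n, d, H⟩ := v.exists_primeCompl_mul_eq_or_mul_eq x
    have d2 : v.valuation K (algebraMap _ K (d : 𝓞 K)) = 1 := v.valuation_eq_one_iff_notMem.2 d.2
    have d1 : w.v (algebraMap K Om (algebraMap _ K (d : 𝓞 K))) = 1 :=
      le_antisymm (a1 _) (not_lt.1 fun e => ((a2 _).1 e).ne d2)
    rw [Valuation.comap_apply]
    rcases H with H | H
    all_goals
      have e1 := congrArg (fun z => w.v (algebraMap K Om z)) H
      have e2 := congrArg (v.valuation K) H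
      simp only [map_mul, d1, d2, mul_one] at e1 e2
    · exact iff_of_true (e1 ▸ a1 n) (e2 ▸ a3 n)
    · rw [eq_inv_of_mul_eq_one_left e1, eq_inv_of_mul_eq_one_left e2,
        inv_le_one₀ (pos_of_ne_zero (right_ne_zero_of_mul_eq_one e1)),
        inv_le_one₀ (pos_of_ne_zero (right_ne_zero_of_mul_eq_one e2)), ← not_lt, ← not_lt, a2]
  exact fun x y => (e x y).trans (nrm v x y).symm

end LNKx

theorem p_LNK :
    S_LNK := by
  intro K _ _ _
  refine ⟨fun w => ?_, fun v => ?_, fun w v h => ?_⟩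
  · refine ⟨⟨(TPL.PP w).comap (LNKx.j K), inferInstance, fun e => ?_⟩, LNKx.key rfl⟩
    have h2 : ((w.p : ℕ) : 𝓞 K) ∈ (TPL.PP w).comap (LNKx.j K) := by
      rw [Ideal.mem_comap, map_natCast]
      exact w.v_p_lt
    rw [e, Ideal.mem_bot, Nat.cast_eq_zero] at h2
    exact w.prime.ne_zero h2
  · let _ := (LNKx.j K).toAlgebra
    have : Algebra.IsIntegral (𝓞 K) TPL.Zb := ⟨fun x => (integralClosure.isIntegral x).tower_top⟩
    have := v.isPrime
    obtain ⟨Q, -, hQ, e⟩ := Ideal.exists_ideal_over_prime_of_isIntegral (S := TPL.Zb) v.asIdeal ⊥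
      fun x hx => by
        have : x = 0 := RingOfIntegers.coe_injective ((algebraMap K Om).injective
          ((congrArg Subtype.val (Ideal.mem_bot.1 hx)).trans (by simp)))
        rw [this]
        exact zero_mem _
    rcases Ideal.isPrime_int_iff.1 (inferInstance : (v.asIdeal.under ℤ).IsPrime) with
      e1 | ⟨p, hp, e1⟩
    · exact absurd (Ideal.eq_bot_of_comap_eq_bot e1) v.ne_bot
    obtain ⟨w, rfl⟩ := TPL.ex p hp
    have h4 : ((w.p : ℕ) : ℤ) ∈ v.asIdeal.under ℤ := e1 ▸ Ideal.mem_span_singleton_self _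
    rw [← e, Ideal.mem_comap, Ideal.mem_comap, map_natCast, map_natCast] at h4
    obtain ⟨u, rfl⟩ := TPL.core_top w Q h4
    exact ⟨u • w, LNKx.key e.symm⟩
  · have := v.isPrime
    have h1 : w.v (algebraMap K Om w.p) < 1 := by rw [map_natCast]; exact w.v_p_lt
    have h2 := (h.lt w.p 1).1 (by rwa [map_one, map_one])
    rw [← not_le, LNKx.nrm, not_le, map_one, ← map_natCast (algebraMap (𝓞 K) K)] at h2
    have h3 : ((w.p : ℕ) : 𝓞 K) ∈ v.asIdeal := (v.valuation_lt_one_iff_mem _).1 h2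
    have h4 : (Ideal.span {(w.p : ℤ)}).IsMaximal :=
      PrincipalIdealRing.isMaximal_of_irreducible (Nat.prime_iff_prime_int.1 w.prime).irreducible
    refine (h4.eq_of_le (Ideal.IsPrime.ne_top inferInstance) ?_).symm
    rwa [Ideal.span_singleton_le_iff_mem, Ideal.mem_comap, map_natCast]

end Pool.Agent.P.MP_ab3ecb_nt.TK
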