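import Pool.Agent.P.MP_ab3ecb_nt.TK.All

/-!
Let `K` be a number field with a fixed real embedding, `E` the elliptic curve
`y ^ 2 = x ^ 3 + A x + B` over `K`, `Γ` a group of points of `E` over `K` of rank at most one, `F`
a polynomial in `x` and `y` which is not negative at the real points of `E` in the other real
embeddings, and `S` a set containing all but finitely many finite places. Let `a` be a family of
points of `E` over the completions at the places of `S` which is a limit of points of `Γ` on whose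
real component `F` takes a negative value, and at which the values of `F` are squares. If a
multiple of `a` agrees with one point of `Γ` at two places of different residue characteristic,
then `a` is the diagonal image of a point of `Γ` at which the value of `F` is a square in `K`.
-/

namespace Pool.Agent.P.MP_ab3ecb_nt.TK.TwoPlaces

open Pool.Agent.P.MP_ab3ecb_nt.TK (Pt Neg Oth IsSq Loc loc InCl)
open NumberField IsDedekindDomain
open scoped Classical

theorem result (K : Type) [Field K] [NumberField K] [Algebra K ℝ] (A B : 𝓞 K)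
    (hD : 4 * A ^ 3 + 27 * B ^ 2 ≠ 0) (Γ : AddSubgroup (Pt A B K))
    (hr : ∃ P : Γ, (AddSubgroup.zmultiples P).FiniteIndex) (F : MvPolynomial (Fin 2) (𝓞 K))
    (hO : Oth A B F) (S : Set (HeightOneSpectrum (𝓞 K))) (hS : Sᶜ.Finite)
    (a : ∀ r : S, Loc A B r.1) (ha : InCl {Q | Q ∈ Γ ∧ Neg F Q} a) (hF : ∀ r, IsSq F (a r))
    (p q : S) (hpq : p.1.asIdeal.under ℤ ≠ q.1.asIdeal.under ℤ) (n : ℕ) (hn : n ≠ 0)
    (Q : Pt A B K) (hQ : Q ∈ Γ) (hp : n • a p = loc p Q) (hq : n • a q = loc q Q) :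
    ∃ R ∈ Γ, (∀ r, a r = loc r R) ∧ IsSq F R := by
  obtain ⟨_, _⟩ := P.MP_ab3ecb_nt.TK.a_CMP K
  have h1 : ∀ r, a r ≠ 0 → IsSquare (P.MP_ab3ecb_nt.TK.ev F (a r)) := fun r h => by
    obtain ⟨h', e⟩ := P.MP_ab3ecb_nt.TK.eq_some h
    exact hF r _ _ h' e
  obtain ⟨R, hR, e⟩ := P.MP_ab3ecb_nt.TK.a_TOP A B Γ F S a p q n Q hD hr hS ha h1 hO hpq hn hQ hp hq
  refine ⟨R, hR, e, fun x y h e' => ?_⟩
  have h0 : R ≠ 0 := e' ▸ WeierstrassCurve.Affine.Point.some_ne_zero h
  have h2 := P.MP_ab3ecb_nt.TK.a_RAT A B F S R hS h0 fun r => by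
    rw [← e r]
    refine h1 r ?_
    rw [e r]
    exact mt P.MP_ab3ecb_nt.TK.bc_eq_zero.1 h0
  rw [e'] at h2
  exact h2

end Pool.Agent.P.MP_ab3ecb_nt.TK.TwoPlaces
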